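import Pool.Agent.H83R3.BSPT.Defs

set_option autoImplicit false

namespace Pool.Agent.H83R3.BSPT

variable {K : Type} {E : K → K → Prop}

@[simp] theorem cons_zero (a : K) (v : ℕ → K) : cons a v 0 = a := rfl
@[simp] theorem cons_succ (a : K) (v : ℕ → K) (n : ℕ) : cons a v (n + 1) = v n := rfl

theorem cons_head_tail (v : ℕ → K) : cons (v 0) (fun n => v (n + 1)) = v := by
  funext n
  cases n <;> rfl

theorem comp_cons {L : Type} (f : K → L) (a : K) (v : ℕ → K) :
    (fun n => f (cons a v n)) = cons (f a) (fun n => f (v n)) := by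
  funext n
  cases n <;> rfl

def lift (f : ℕ → ℕ) : ℕ → ℕ
  | 0 => 0
  | n + 1 => f n + 1

def rename : (ℕ → ℕ) → Fml → Fml
  | f, .mem i j => .mem (f i) (f j)
  | f, .eq i j => .eq (f i) (f j)
  | _, .bot => .bot
  | f, .imp φ ψ => .imp (rename f φ) (rename f ψ)
  | f, .all φ => .all (rename (lift f) φ)

theorem sat_rename (φ : Fml) : ∀ (f : ℕ → ℕ) (v : ℕ → K),
    Sat E (rename f φ) v ↔ Sat E φ (fun n => v (f n)) := by
  induction φ with
  | mem i j => intro f v; exact Iff.rfl
  | eq i j => intro f v; exact Iff.rfl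
  | bot => intro f v; exact Iff.rfl
  | imp φ ψ h1 h2 => intro f v; exact imp_congr (h1 f v) (h2 f v)
  | all φ h =>
    intro f v
    refine forall_congr' fun a => ?_
    rw [h]
    have : (fun n => cons a v (lift f n)) = cons a (fun n => v (f n)) := by
      funext n
      cases n <;> rfl
    rw [this]

/-- bound on the free variables -/
def bd : Fml → ℕ
  | .mem i j => max i j + 1
  | .eq i j => max i j + 1
  | .bot => 0
  | .imp φ ψ => max (bd φ) (bd ψ)
  | .all φ => bd φ - 1

theorem sat_congr (φ : Fml) : ∀ (v w : ℕ → K), (∀ n, n < bd φ → v n = w n) →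
    (Sat E φ v ↔ Sat E φ w) := by
  induction φ with
  | mem i j =>
    intro v w h
    have h1 : v i = w i := h i (by simp only [bd]; omega)
    have h2 : v j = w j := h j (by simp only [bd]; omega)
    simp only [Sat, h1, h2]
  | eq i j =>
    intro v w h
    have h1 : v i = w i := h i (by simp only [bd]; omega)
    have h2 : v j = w j := h j (by simp only [bd]; omega)
    simp only [Sat, h1, h2]
  | bot => intro v w _; exact Iff.rfl
  | imp φ ψ h1 h2 =>
    intro v w h
    refine imp_congr (h1 v w fun n hn => h n ?_) (h2 v w fun n hn => h n ?_)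
    · simp only [bd]; omega
    · simp only [bd]; omega
  | all φ ih =>
    intro v w h
    refine forall_congr' fun a => ih _ _ fun n hn => ?_
    cases n with
    | zero => rfl
    | succ n => exact h n (by simp only [bd]; omega)

/-- code of a formula -/
def code : Fml → ℕ
  | .mem i j => 5 * Nat.pair i j
  | .eq i j => 5 * Nat.pair i j + 1
  | .bot => 2
  | .imp φ ψ => 5 * Nat.pair (code φ) (code ψ) + 3
  | .all φ => 5 * code φ + 4

theorem code_inj : Function.Injective code := by
  intro φ
  induction φ with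
  | mem i j =>
    intro ψ h
    cases ψ with
    | mem k l =>
      simp only [code] at h
      have : Nat.pair i j = Nat.pair k l := by omega
      obtain ⟨rfl, rfl⟩ := Nat.pair_eq_pair.1 this
      rfl
    | eq k l => simp only [code] at h; omega
    | bot => simp only [code] at h; omega
    | imp a b => simp only [code] at h; omega
    | all a => simp only [code] at h; omega
  | eq i j =>
    intro ψ h
    cases ψ with
    | mem k l => simp only [code] at h; omega
    | eq k l =>
      simp only [code] at h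
      have : Nat.pair i j = Nat.pair k l := by omega
      obtain ⟨rfl, rfl⟩ := Nat.pair_eq_pair.1 this
      rfl
    | bot => simp only [code] at h; omega
    | imp a b => simp only [code] at h; omega
    | all a => simp only [code] at h; omega
  | bot =>
    intro ψ h
    cases ψ with
    | mem k l => simp only [code] at h; omega
    | eq k l => simp only [code] at h; omega
    | bot => rfl
    | imp a b => simp only [code] at h; omega
    | all a => simp only [code] at h; omega
  | imp φ ψ h1 h2 =>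
    intro χ h
    cases χ with
    | mem k l => simp only [code] at h; omega
    | eq k l => simp only [code] at h; omega
    | bot => simp only [code] at h; omega
    | imp a b =>
      simp only [code] at h
      have : Nat.pair (code φ) (code ψ) = Nat.pair (code a) (code b) := by omega
      obtain ⟨ha, hb⟩ := Nat.pair_eq_pair.1 this
      rw [h1 ha, h2 hb]
    | all a => simp only [code] at h; omega
  | all φ ih =>
    intro χ h
    cases χ with
    | mem k l => simp only [code] at h; omega
    | eq k l => simp only [code] at h; omega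
    | bot => simp only [code] at h; omega
    | imp a b => simp only [code] at h; omega
    | all a =>
      simp only [code] at h
      have : code φ = code a := by omega
      rw [ih this]

instance : Countable Fml := ⟨⟨code, code_inj⟩⟩

/-! ### Uniformly definable predicates (no parameters, all structures) -/

def UD (R : ∀ {K : Type}, (K → K → Prop) → (ℕ → K) → Prop) : Prop :=
  ∃ φ : Fml, ∀ (K : Type) (E : K → K → Prop) (v : ℕ → K), R E v ↔ Sat E φ v

namespace UD

theorem mem (i j : ℕ) : UD (fun {_} E v => E (v i) (v j)) := ⟨.mem i j, fun _ _ _ => Iff.rfl⟩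

theorem eq (i j : ℕ) : UD (fun {_} _ v => v i = v j) := ⟨.eq i j, fun _ _ _ => Iff.rfl⟩

theorem imp {P Q : ∀ {K : Type}, (K → K → Prop) → (ℕ → K) → Prop} (h1 : UD P) (h2 : UD Q) :
    UD (fun {_} E v => P E v → Q E v) := by
  obtain ⟨φ, hφ⟩ := h1
  obtain ⟨ψ, hψ⟩ := h2
  exact ⟨.imp φ ψ, fun K E v => imp_congr (hφ K E v) (hψ K E v)⟩

theorem not {P : ∀ {K : Type}, (K → K → Prop) → (ℕ → K) → Prop} (h1 : UD P) :
    UD (fun {_} E v => ¬ P E v) := by
  obtain ⟨φ, hφ⟩ := h1
  exact ⟨.imp φ .bot, fun K E v => imp_congr (hφ K E v) Iff.rfl⟩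

theorem congr {P Q : ∀ {K : Type}, (K → K → Prop) → (ℕ → K) → Prop} (h1 : UD P)
    (h : ∀ (K : Type) (E : K → K → Prop) (v : ℕ → K), Q E v ↔ P E v) : UD Q := by
  obtain ⟨φ, hφ⟩ := h1
  exact ⟨φ, fun K E v => (h K E v).trans (hφ K E v)⟩

theorem and {P Q : ∀ {K : Type}, (K → K → Prop) → (ℕ → K) → Prop} (h1 : UD P) (h2 : UD Q) :
    UD (fun {_} E v => P E v ∧ Q E v) :=
  congr (not (imp h1 (not h2))) (fun K E v => by tauto)

theorem or {P Q : ∀ {K : Type}, (K → K → Prop) → (ℕ → K) → Prop} (h1 : UD P) (h2 : UD Q) :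
    UD (fun {_} E v => P E v ∨ Q E v) :=
  congr (imp (not h1) h2) (fun K E v => by tauto)

theorem iff {P Q : ∀ {K : Type}, (K → K → Prop) → (ℕ → K) → Prop} (h1 : UD P) (h2 : UD Q) :
    UD (fun {_} E v => P E v ↔ Q E v) :=
  congr (and (imp h1 h2) (imp h2 h1)) (fun K E v => by tauto)

theorem all {P : ∀ {K : Type}, (K → K → Prop) → (ℕ → K) → K → Prop}
    (h : UD (fun {_} E v => P E (fun n => v (n + 1)) (v 0))) :
    UD (fun {_} E v => ∀ a, P E v a) := by
  obtain ⟨φ, hφ⟩ := h
  refine ⟨.all φ, fun K E v => forall_congr' fun a => ?_⟩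
  exact hφ K E (cons a v)

theorem ex {P : ∀ {K : Type}, (K → K → Prop) → (ℕ → K) → K → Prop}
    (h : UD (fun {_} E v => P E (fun n => v (n + 1)) (v 0))) :
    UD (fun {_} E v => ∃ a, P E v a) := by
  have h' : UD (fun {_} E v => ∀ a, ¬ P E v a) := all (P := fun {_} E v a => ¬ P E v a) (not h)
  exact congr (not h') (fun K E v => by push Not; exact Iff.rfl)

theorem sub (f : ℕ → ℕ) {P : ∀ {K : Type}, (K → K → Prop) → (ℕ → K) → Prop} (h : UD P) :
    UD (fun {_} E v => P E (fun n => v (f n))) := by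
  obtain ⟨φ, hφ⟩ := h
  refine ⟨rename f φ, fun K E v => ?_⟩
  rw [sat_rename]
  exact hφ K E _

theorem fml (φ : Fml) : UD (fun {_} E v => Sat E φ v) := ⟨φ, fun _ _ _ => Iff.rfl⟩

end UD

theorem ud_isSucc (i j : ℕ) : UD (fun {_} E v => IsSucc E (v i) (v j)) := by
  unfold IsSucc
  exact .all (.iff (.mem _ _) (.or (.mem _ _) (.eq _ _)))

theorem ud_isInd (i : ℕ) : UD (fun {_} E v => IsInd E (v i)) := by
  unfold IsInd
  exact .and (.ex (.and (.mem _ _) (.all (.not (.mem _ _)))))
    (.all (.imp (.mem _ _) (.ex (.and (.mem _ _) (ud_isSucc _ _)))))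

theorem ud_isNat (i : ℕ) : UD (fun {_} E v => IsNat E (v i)) := by
  unfold IsNat
  exact .all (.imp (ud_isInd _) (.mem _ _))

theorem ud_isPair (i j k : ℕ) : UD (fun {_} E v => IsPair E (v i) (v j) (v k)) := by
  unfold IsPair
  exact .all (.iff (.mem _ _) (.or (.all (.iff (.mem _ _) (.eq _ _)))
    (.all (.iff (.mem _ _) (.or (.eq _ _) (.eq _ _))))))

theorem ud_app (i j k : ℕ) : UD (fun {_} E v => App E (v i) (v j) (v k)) := by
  unfold App
  exact .ex (.and (.mem _ _) (ud_isPair _ _ _))

theorem ud_isBij (i j k : ℕ) : UD (fun {_} E v => IsBij E (v i) (v j) (v k)) := by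
  unfold IsBij
  exact .and (.all (.all (.imp (ud_app _ _ _) (.and (.mem _ _) (.mem _ _)))))
    (.and (.all (.imp (.mem _ _) (.ex (ud_app _ _ _))))
    (.and (.all (.imp (.mem _ _) (.ex (ud_app _ _ _))))
    (.and (.all (.all (.all (.imp (ud_app _ _ _) (.imp (ud_app _ _ _) (.eq _ _))))))
    (.all (.all (.all (.imp (ud_app _ _ _) (.imp (ud_app _ _ _) (.eq _ _)))))))))

theorem ud_isFin (i : ℕ) : UD (fun {_} E v => IsFin E (v i)) := by
  unfold IsFin
  exact .ex (.ex (.and (ud_isNat _) (ud_isBij _ _ _)))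

/-! ### Predicates definable with parameters in a fixed structure -/

def mix (v p : ℕ → K) : ℕ → K := fun n => if n % 2 = 0 then v (n / 2) else p (n / 2)

@[simp] theorem mix_even (v p : ℕ → K) (n : ℕ) : mix v p (2 * n) = v n := by
  unfold mix
  rw [if_pos (by omega)]
  congr 1
  omega

@[simp] theorem mix_odd (v p : ℕ → K) (n : ℕ) : mix v p (2 * n + 1) = p n := by
  unfold mix
  rw [if_neg (by omega)]
  congr 1
  omega

def Dfn (E : K → K → Prop) (R : (ℕ → K) → Prop) : Prop :=
  ∃ (φ : Fml) (p : ℕ → K), ∀ v, R v ↔ Sat E φ (mix v p)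

/-- terms: variables or parameters -/
def Tm (t : (ℕ → K) → K) : Prop := (∃ i, ∀ v, t v = v i) ∨ (∃ c, ∀ v, t v = c)

theorem Tm.var (i : ℕ) : Tm (fun v : ℕ → K => v i) := Or.inl ⟨i, fun _ => rfl⟩
theorem Tm.const (c : K) : Tm (fun _ : ℕ → K => c) := Or.inr ⟨c, fun _ => rfl⟩

theorem Tm.cons {t : ℕ → (ℕ → K) → K} {a : (ℕ → K) → K} (ha : Tm a) (h : ∀ n, Tm (t n)) :
    ∀ n, Tm (fun v => BSPT.cons (a v) (fun n => t n v) n) := by
  intro n
  cases n with
  | zero => exact ha
  | succ n => exact h n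

namespace Dfn

theorem congr {P Q : (ℕ → K) → Prop} (h1 : Dfn E P) (h : ∀ v, Q v ↔ P v) : Dfn E Q := by
  obtain ⟨φ, p, hφ⟩ := h1
  exact ⟨φ, p, fun v => (h v).trans (hφ v)⟩

/-- substitution of variables and parameters -/
theorem sub [hK : Nonempty K] {R : (ℕ → K) → Prop} (h : Dfn E R) (f : ℕ → (ℕ → K) → K)
    (hf : ∀ n, Tm (f n)) : Dfn E (fun v => R (fun n => f n v)) := by
  classical
  obtain ⟨φ, p, hφ⟩ := h
  obtain ⟨d⟩ := hK
  let c : ℕ → K := fun n => if hc : ∃ c, ∀ v, f n v = c then hc.choose else d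
  let g : ℕ → ℕ := fun n => if hc : ∃ i, ∀ v, f n v = v i then 2 * hc.choose else
    2 * (2 * n + 1) + 1
  let h : ℕ → ℕ := fun n => if n % 2 = 0 then g (n / 2) else 2 * (2 * (n / 2)) + 1
  refine ⟨rename h φ, mix p c, fun v => ?_⟩
  refine (hφ _).trans ?_
  rw [sat_rename]
  have : (mix (fun n => f n v) p) = (fun n => mix v (mix p c) (h n)) := by
    funext n
    rcases Nat.even_or_odd' n with ⟨m, rfl | rfl⟩
    · rw [mix_even]
      have h1 : h (2 * m) = g m := by
        simp only [h]
        rw [if_pos (by omega)]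
        congr 1
        omega
      rw [h1]
      by_cases hc : ∃ i, ∀ v, f m v = v i
      · simp only [g, dif_pos hc, mix_even]
        exact hc.choose_spec v
      · have hc2 : ∃ c, ∀ v, f m v = c := by
          rcases hf m with h' | h'
          · exact absurd h' hc
          · exact h'
        simp only [g, dif_neg hc, mix_odd, c, dif_pos hc2]
        exact hc2.choose_spec v
    · rw [mix_odd]
      have h1 : h (2 * m + 1) = 2 * (2 * m) + 1 := by
        simp only [h]
        rw [if_neg (by omega)]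
        congr 3
        omega
      rw [h1, mix_odd, mix_even]
  rw [this]

theorem ofUD [hK : Nonempty K] {R : ∀ {K : Type}, (K → K → Prop) → (ℕ → K) → Prop}
    (h : UD R) : Dfn E (fun v => R E v) := by
  obtain ⟨d⟩ := hK
  obtain ⟨φ, hφ⟩ := h
  refine ⟨rename (fun n => 2 * n) φ, fun _ => d, fun v => ?_⟩
  refine (hφ K E v).trans ?_
  rw [sat_rename]
  simp only [mix_even]

theorem two {P Q : (ℕ → K) → Prop} (h1 : Dfn E P) (h2 : Dfn E Q) :
    ∃ (φ ψ : Fml) (p : ℕ → K), (∀ v, P v ↔ Sat E φ (mix v p)) ∧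
      (∀ v, Q v ↔ Sat E ψ (mix v p)) := by
  obtain ⟨φ, p, hφ⟩ := h1
  obtain ⟨ψ, q, hψ⟩ := h2
  refine ⟨rename (fun n => if n % 2 = 0 then n else 2 * (2 * (n / 2)) + 1) φ,
    rename (fun n => if n % 2 = 0 then n else 2 * (2 * (n / 2) + 1) + 1) ψ, mix p q, ?_, ?_⟩
  · intro v
    rw [sat_rename, hφ]
    have : mix v p = fun n => mix v (mix p q) (if n % 2 = 0 then n else 2 * (2 * (n / 2)) + 1) := by
      funext n
      rcases Nat.even_or_odd' n with ⟨m, rfl | rfl⟩
      · rw [if_pos (by omega), mix_even, mix_even]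
      · rw [if_neg (by omega), mix_odd, mix_odd, mix_even]
        congr 1
        omega
    rw [this]
  · intro v
    rw [sat_rename, hψ]
    have : mix v q = fun n => mix v (mix p q)
        (if n % 2 = 0 then n else 2 * (2 * (n / 2) + 1) + 1) := by
      funext n
      rcases Nat.even_or_odd' n with ⟨m, rfl | rfl⟩
      · rw [if_pos (by omega), mix_even, mix_even]
      · rw [if_neg (by omega), mix_odd, mix_odd, mix_odd]
        congr 1
        omega
    rw [this]

theorem imp {P Q : (ℕ → K) → Prop} (h1 : Dfn E P) (h2 : Dfn E Q) :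
    Dfn E (fun v => P v → Q v) := by
  obtain ⟨φ, ψ, p, hφ, hψ⟩ := two h1 h2
  exact ⟨.imp φ ψ, p, fun v => imp_congr (hφ v) (hψ v)⟩

theorem not {P : (ℕ → K) → Prop} (h1 : Dfn E P) : Dfn E (fun v => ¬ P v) := by
  obtain ⟨φ, p, hφ⟩ := h1
  exact ⟨.imp φ .bot, p, fun v => imp_congr (hφ v) Iff.rfl⟩

theorem and {P Q : (ℕ → K) → Prop} (h1 : Dfn E P) (h2 : Dfn E Q) :
    Dfn E (fun v => P v ∧ Q v) :=
  congr (not (imp h1 (not h2))) (fun v => by tauto)

theorem or {P Q : (ℕ → K) → Prop} (h1 : Dfn E P) (h2 : Dfn E Q) :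
    Dfn E (fun v => P v ∨ Q v) :=
  congr (imp (not h1) h2) (fun v => by tauto)

theorem iff {P Q : (ℕ → K) → Prop} (h1 : Dfn E P) (h2 : Dfn E Q) :
    Dfn E (fun v => P v ↔ Q v) :=
  congr (and (imp h1 h2) (imp h2 h1)) (fun v => by tauto)

theorem all {P : (ℕ → K) → K → Prop}
    (h : Dfn E (fun v => P (fun n => v (n + 1)) (v 0))) :
    Dfn E (fun v => ∀ a, P v a) := by
  obtain ⟨φ, p, hφ⟩ := h
  refine ⟨.all (rename (fun n => if n = 0 then 0 else if n % 2 = 0 then n - 1 else n + 1) φ), p,
    fun v => forall_congr' fun a => ?_⟩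
  rw [sat_rename]
  have h1 := hφ (cons a v)
  refine h1.trans ?_
  have : mix (cons a v) p = fun n => cons a (mix v p)
      (if n = 0 then 0 else if n % 2 = 0 then n - 1 else n + 1) := by
    funext n
    rcases Nat.even_or_odd' n with ⟨m, rfl | rfl⟩
    · cases m with
      | zero => rfl
      | succ m =>
        rw [if_neg (by omega), if_pos (by omega), mix_even]
        have : 2 * (m + 1) - 1 = 2 * m + 1 := by omega
        rw [this, cons_succ, cons_succ, mix_even]
    · rw [if_neg (by omega), if_neg (by omega), mix_odd, cons_succ, mix_odd]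
  rw [this]

theorem ex {P : (ℕ → K) → K → Prop}
    (h : Dfn E (fun v => P (fun n => v (n + 1)) (v 0))) :
    Dfn E (fun v => ∃ a, P v a) := by
  have h' : Dfn E (fun v => ∀ a, ¬ P v a) := all (P := fun v a => ¬ P v a) (not h)
  exact congr (not h') (fun v => by push Not; exact Iff.rfl)

variable [Nonempty K]

theorem mem {s t : (ℕ → K) → K} (hs : Tm s) (ht : Tm t) : Dfn E (fun v => E (s v) (t v)) :=
  sub (R := fun v => E (v 0) (v 1)) (ofUD (UD.mem 0 1)) (fun n => if n = 0 then s else t)
    (fun n => by split_ifs <;> assumption)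

theorem eq {s t : (ℕ → K) → K} (hs : Tm s) (ht : Tm t) : Dfn E (fun v => s v = t v) :=
  sub (R := fun v => v 0 = v 1) (ofUD (UD.eq 0 1)) (fun n => if n = 0 then s else t)
    (fun n => by split_ifs <;> assumption)

theorem isNat {s : (ℕ → K) → K} (hs : Tm s) : Dfn E (fun v => IsNat E (s v)) :=
  sub (R := fun v => IsNat E (v 0)) (ofUD (ud_isNat 0)) (fun _ => s) (fun _ => hs)

theorem isFin {s : (ℕ → K) → K} (hs : Tm s) : Dfn E (fun v => IsFin E (s v)) :=
  sub (R := fun v => IsFin E (v 0)) (ofUD (ud_isFin 0)) (fun _ => s) (fun _ => hs)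

theorem isSucc {s t : (ℕ → K) → K} (hs : Tm s) (ht : Tm t) :
    Dfn E (fun v => IsSucc E (s v) (t v)) :=
  sub (R := fun v => IsSucc E (v 0) (v 1)) (ofUD (ud_isSucc 0 1))
    (fun n => if n = 0 then s else t) (fun n => by split_ifs <;> assumption)

theorem isPair {r s t : (ℕ → K) → K} (hr : Tm r) (hs : Tm s) (ht : Tm t) :
    Dfn E (fun v => IsPair E (r v) (s v) (t v)) :=
  sub (R := fun v => IsPair E (v 0) (v 1) (v 2)) (ofUD (ud_isPair 0 1 2))
    (fun n => if n = 0 then r else if n = 1 then s else t)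
    (fun n => by split_ifs <;> assumption)

theorem app {r s t : (ℕ → K) → K} (hr : Tm r) (hs : Tm s) (ht : Tm t) :
    Dfn E (fun v => App E (r v) (s v) (t v)) :=
  sub (R := fun v => App E (v 0) (v 1) (v 2)) (ofUD (ud_app 0 1 2))
    (fun n => if n = 0 then r else if n = 1 then s else t)
    (fun n => by split_ifs <;> assumption)

theorem isBij {r s t : (ℕ → K) → K} (hr : Tm r) (hs : Tm s) (ht : Tm t) :
    Dfn E (fun v => IsBij E (r v) (s v) (t v)) :=
  sub (R := fun v => IsBij E (v 0) (v 1) (v 2)) (ofUD (ud_isBij 0 1 2))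
    (fun n => if n = 0 then r else if n = 1 then s else t)
    (fun n => by split_ifs <;> assumption)

/-- formulas under an arbitrary substitution -/
theorem fml (φ : Fml) (f : ℕ → (ℕ → K) → K) (hf : ∀ n, Tm (f n)) :
    Dfn E (fun v => Sat E φ (fun n => f n v)) :=
  sub (R := fun v => Sat E φ v) (ofUD (UD.fml φ)) f hf

end Dfn

end Pool.Agent.H83R3.BSPT
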