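import Pool.Agent.H83R3.BSPT.Internal

set_option autoImplicit false

/-!
Derivation of the Collection scheme in an arbitrary model of ZF (with Replacement), by means of
the levels of the cumulative hierarchy (Scott, Potter, Button).
-/

namespace Pool.Agent.H83R3.BSPT

variable {K : Type} {E : K → K → Prop}

def Sub (E : K → K → Prop) (x y : K) : Prop := ∀ z, E z x → E z y

/-- `s` is the set of all subsets of elements of `a` -/
def IsPot (E : K → K → Prop) (a s : K) : Prop := ∀ x, E x s ↔ ∃ c, E c a ∧ Sub E x c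

def Hist (E : K → K → Prop) (h : K) : Prop :=
  ∀ x, E x h → ∀ y, E y x ↔ ∃ c, (E c x ∧ E c h) ∧ Sub E y c

def Lev (E : K → K → Prop) (s : K) : Prop := ∃ h, Hist E h ∧ IsPot E h s

theorem ud_sub (i j : ℕ) : UD (fun {_} E v => Sub E (v i) (v j)) := by
  unfold Sub
  exact .all (.imp (.mem _ _) (.mem _ _))

theorem ud_isPot (i j : ℕ) : UD (fun {_} E v => IsPot E (v i) (v j)) := by
  unfold IsPot
  exact .all (.iff (.mem _ _) (.ex (.and (.mem _ _) (ud_sub _ _))))

theorem ud_hist (i : ℕ) : UD (fun {_} E v => Hist E (v i)) := by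
  unfold Hist
  exact .all (.imp (.mem _ _) (.all (.iff (.mem _ _) (.ex (.and (.and (.mem _ _) (.mem _ _))
    (ud_sub _ _))))))

theorem ud_lev (i : ℕ) : UD (fun {_} E v => Lev E (v i)) := by
  unfold Lev
  exact .ex (.and (ud_hist _) (ud_isPot _ _))

theorem Dfn.subset [Nonempty K] {s t : (ℕ → K) → K} (hs : Tm s) (ht : Tm t) :
    Dfn E (fun v => Sub E (s v) (t v)) :=
  sub (R := fun v => Sub E (v 0) (v 1)) (ofUD (ud_sub 0 1))
    (fun n => if n = 0 then s else t) (fun n => by split_ifs <;> assumption)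

theorem Dfn.lev [Nonempty K] {s : (ℕ → K) → K} (hs : Tm s) : Dfn E (fun v => Lev E (s v)) :=
  sub (R := fun v => Lev E (v 0)) (ofUD (ud_lev 0)) (fun _ => s) (fun _ => hs)

theorem Sub.refl (x : K) : Sub E x x := fun _ h => h

theorem Sub.trans {x y z : K} (h1 : Sub E x y) (h2 : Sub E y z) : Sub E x z :=
  fun w h => h2 w (h1 w h)

def Potent (E : K → K → Prop) (s : K) : Prop := ∀ x c, Sub E x c → E c s → E x s

theorem IsPot.potent {a s : K} (h : IsPot E a s) : Potent E s := by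
  intro x c hx hc
  obtain ⟨d, hd, hd2⟩ := (h c).1 hc
  exact (h x).2 ⟨d, hd, hx.trans hd2⟩

theorem Lev.potent {s : K} (h : Lev E s) : Potent E s := by
  obtain ⟨h, _, h2⟩ := h
  exact h2.potent

theorem Hist.potent {h x : K} (hh : Hist E h) (hx : E x h) : Potent E x := by
  intro y c hy hc
  obtain ⟨d, hd, hd2⟩ := (hh x hx c).1 hc
  exact (hh x hx y).2 ⟨d, hd, hy.trans hd2⟩

theorem Lev.trans {s : K} (h : Lev E s) : ∀ x, E x s → Sub E x s := by
  obtain ⟨h, hh, h2⟩ := h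
  intro x hx y hy
  obtain ⟨c, hc, hxc⟩ := (h2 x).1 hx
  obtain ⟨d, ⟨_, hd⟩, hyd⟩ := (hh c hc y).1 (hxc y hy)
  exact (h2 y).2 ⟨d, hd, hyd⟩

/-- minimal elements of definable classes of potent sets -/
theorem exists_min (h : ZF E) (P : K → Prop) (hP : Dfn E (fun v => P (v 0)))
    (hpot : ∀ x, P x → Potent E x) (hex : ∃ x, P x) : ∃ a, P a ∧ ∀ x, P x → ¬ E x a := by
  have := h.ne
  obtain ⟨a0, ha0⟩ := hex
  obtain ⟨c, hc⟩ := h.sep (fun x => ∀ b, P b → E x b)
    (.all (.imp (Dfn.sub hP (fun _ v => v 0) (fun _ => .var _)) (.mem (.var _) (.var _)))) a0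
  have hcc : ¬ E c c := h.not_mem_self c
  have : ∃ b, P b ∧ ¬ E c b := by
    by_contra hcon
    push Not at hcon
    exact hcc ((hc c).2 ⟨hcon a0 ha0, hcon⟩)
  obtain ⟨b, hb, hcb⟩ := this
  refine ⟨b, hb, fun x hx hxb => hcb ?_⟩
  exact hpot b hb c x (fun z hz => ((hc z).1 hz).2 x hx) hxb

theorem Hist.lev (h : ZF E) {g c : K} (hg : Hist E g) (hc : E c g) : Lev E c := by
  have := h.ne
  by_contra hcon
  obtain ⟨c, ⟨hcg, hcl⟩, hmin⟩ := exists_min h (fun x => E x g ∧ ¬ Lev E x)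
    (.and (.mem (.var _) (.const _)) (.not (.lev (.var _)))) (fun x hx => hg.potent hx.1)
    ⟨c, hc, hcon⟩
  apply hcl
  obtain ⟨g', hg'⟩ := h.sep (fun x => E x g) (.mem (.var _) (.const _)) c
  refine ⟨g', ?_, ?_⟩
  · intro x hx y
    obtain ⟨hxc, hxg⟩ := (hg' x).1 hx
    have hxl : Lev E x := by
      by_contra hcon'
      exact hmin x ⟨hxg, hcon'⟩ hxc
    constructor
    · intro hy
      obtain ⟨d, ⟨hd1, hd2⟩, hd3⟩ := (hg x hxg y).1 hy
      refine ⟨d, ⟨hd1, (hg' d).2 ⟨?_, hd2⟩⟩, hd3⟩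
      exact hg.potent hcg d x (hxl.trans d hd1) hxc
    · rintro ⟨d, ⟨hd1, hd2⟩, hd3⟩
      exact hxl.potent y d hd3 hd1
  · intro x
    rw [hg c hcg x]
    exact exists_congr fun d => by rw [hg' d]

theorem Lev.iff (h : ZF E) {s : K} (hs : Lev E s) (x : K) :
    E x s ↔ ∃ r, E r s ∧ Lev E r ∧ Sub E x r := by
  obtain ⟨g, hg, hgs⟩ := id hs
  constructor
  · intro hx
    obtain ⟨c, hc, hxc⟩ := (hgs x).1 hx
    exact ⟨c, (hgs c).2 ⟨c, hc, Sub.refl c⟩, hg.lev h hc, hxc⟩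
  · rintro ⟨r, hr, _, hxr⟩
    exact hs.potent x r hxr hr

theorem lev_comparable (h : ZF E) : ∀ s t, Lev E s → Lev E t → (E s t ∨ s = t ∨ E t s) := by
  have := h.ne
  by_contra hcon
  push Not at hcon
  obtain ⟨s0, t0, hs0, ht0, h1, h2, h3⟩ := hcon
  obtain ⟨s, ⟨hs, t1, ht1, hst1⟩, hsmin⟩ := exists_min h
    (fun s => Lev E s ∧ ∃ t, Lev E t ∧ ¬ (E s t ∨ s = t ∨ E t s))
    (.and (.lev (.var _)) (.ex (.and (.lev (.var _)) (.not (.or (.mem (.var _) (.var _))
      (.or (.eq (.var _) (.var _)) (.mem (.var _) (.var _)))))))) (fun x hx => hx.1.potent)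
    ⟨s0, hs0, t0, ht0, by tauto⟩
  obtain ⟨t, ⟨ht, hst⟩, htmin⟩ := exists_min h
    (fun t => Lev E t ∧ ¬ (E s t ∨ s = t ∨ E t s))
    (.and (.lev (.var _)) (.not (.or (.mem (.const _) (.var _))
      (.or (.eq (.const _) (.var _)) (.mem (.var _) (.const _))))))
    (fun x hx => hx.1.potent) ⟨t1, ht1, hst1⟩
  have hcomp : ∀ r, Lev E r → (E r s ↔ E r t) := by
    intro r hr
    constructor
    · intro hrs
      have hc : E r t ∨ r = t ∨ E t r := by
        by_contra hcon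
        exact hsmin r ⟨hr, t, ht, hcon⟩ hrs
      rcases hc with h4 | h4 | h4
      · exact h4
      · exfalso; apply hst; rw [← h4]; exact Or.inr (Or.inr hrs)
      · exfalso; apply hst; exact Or.inr (Or.inr (hs.trans r hrs t h4))
    · intro hrt
      have hc : E s r ∨ s = r ∨ E r s := by
        by_contra hcon
        exact htmin r ⟨hr, hcon⟩ hrt
      rcases hc with h4 | h4 | h4
      · exfalso; apply hst; exact Or.inl (ht.trans r hrt s h4)
      · exfalso; apply hst; rw [h4]; exact Or.inl hrt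
      · exact h4
  apply hst
  right; left
  refine h.ext _ _ fun x => ?_
  rw [hs.iff h x, ht.iff h x]
  exact exists_congr fun r => by
    constructor
    · rintro ⟨h4, h5, h6⟩; exact ⟨(hcomp r h5).1 h4, h5, h6⟩
    · rintro ⟨h4, h5, h6⟩; exact ⟨(hcomp r h5).2 h4, h5, h6⟩

/-- the least level with a definable property -/
theorem exists_least (h : ZF E) (P : K → Prop) (hP : Dfn E (fun v => P (v 0)))
    (hex : ∃ x, Lev E x ∧ P x) :
    ∃! l, (Lev E l ∧ P l) ∧ ∀ s, Lev E s → P s → (s = l ∨ E l s) := by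
  have := h.ne
  obtain ⟨l, ⟨hl, hPl⟩, hmin⟩ := exists_min h (fun x => Lev E x ∧ P x)
    (.and (.lev (.var _)) hP) (fun x hx => hx.1.potent) hex
  refine ⟨l, ⟨⟨hl, hPl⟩, fun s hs hPs => ?_⟩, ?_⟩
  · rcases lev_comparable h s l hs hl with h1 | h1 | h1
    · exact absurd h1 (hmin s ⟨hs, hPs⟩)
    · exact Or.inl h1
    · exact Or.inr h1
  · rintro l' ⟨⟨hl', hPl'⟩, hmin'⟩
    rcases hmin' l hl hPl with h1 | h1
    · exact h1.symm
    · rcases lev_comparable h l' l hl' hl with h2 | h2 | h2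
      · exact absurd h2 (hmin l' ⟨hl', hPl'⟩)
      · exact h2
      · exact absurd (hl.trans l' h1 l h2) (h.not_mem_self l)

theorem exists_pot (h : ZF E) (a : K) : ∃ s, IsPot E a s := by
  have := h.ne
  obtain ⟨u, hu⟩ := h.union a
  obtain ⟨p, hp⟩ := h.power u
  obtain ⟨s, hs⟩ := h.sep (fun x => ∃ c, E c a ∧ Sub E x c)
    (.ex (.and (.mem (.var _) (.const _)) (.subset (.var _) (.var _)))) p
  refine ⟨s, fun x => ?_⟩
  rw [hs x]
  constructor
  · exact fun h => h.2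
  · rintro ⟨c, hc, hx⟩
    exact ⟨(hp x).2 (fun w hw => (hu w).2 ⟨c, hc, hx w hw⟩), c, hc, hx⟩

/-! ### transitive closure -/

/-- `u` is the union of `w` -/
def IsUn (E : K → K → Prop) (w u : K) : Prop := ∀ z, E z u ↔ ∃ y, E y w ∧ E z y

theorem ud_isUn (i j : ℕ) : UD (fun {_} E v => IsUn E (v i) (v j)) := by
  unfold IsUn
  exact .all (.iff (.mem _ _) (.ex (.and (.mem _ _) (.mem _ _))))

/-- an approximation to the iteration of the union operation, starting at `a` -/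
def Rec (E : K → K → Prop) (a g n : K) : Prop :=
  (∀ e u, (∀ z, ¬ E z e) → App E g e u → u = a) ∧
  (∀ k k' u, E k n → IsSucc E k k' → App E g k' u → ∃ w, App E g k w ∧ IsUn E w u) ∧
  (∀ k u, App E g k u → (E k n ∨ k = n))

theorem ud_rec (i j k : ℕ) : UD (fun {_} E v => Rec E (v i) (v j) (v k)) := by
  unfold Rec
  exact .and (.all (.all (.imp (.all (.not (.mem _ _))) (.imp (ud_app _ _ _) (.eq _ _)))))
    (.and (.all (.all (.all (.imp (.mem _ _) (.imp (ud_isSucc _ _) (.imp (ud_app _ _ _)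
      (.ex (.and (ud_app _ _ _) (ud_isUn _ _)))))))))
    (.all (.all (.imp (ud_app _ _ _) (.or (.mem _ _) (.eq _ _))))))

def It (E : K → K → Prop) (a n u : K) : Prop := ∃ g, Rec E a g n ∧ App E g n u

theorem ud_it (i j k : ℕ) : UD (fun {_} E v => It E (v i) (v j) (v k)) := by
  unfold It
  exact .ex (.and (ud_rec _ _ _) (ud_app _ _ _))

theorem Dfn.it [Nonempty K] {r s t : (ℕ → K) → K} (hr : Tm r) (hs : Tm s) (ht : Tm t) :
    Dfn E (fun v => It E (r v) (s v) (t v)) :=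
  sub (R := fun v => It E (v 0) (v 1) (v 2)) (ofUD (ud_it 0 1 2))
    (fun n => if n = 0 then r else if n = 1 then s else t)
    (fun n => by split_ifs <;> assumption)

theorem isUn_unique (h : ZF E) {w u u' : K} (h1 : IsUn E w u) (h2 : IsUn E w u') : u = u' :=
  h.ext _ _ fun z => (h1 z).trans (h2 z).symm

/-- restriction of an approximation -/
theorem it_pred (h : ZF E) {a n m u : K} (hn : IsNat E n) (hm : IsSucc E n m)
    (hit : It E a m u) : ∃ w, It E a n w ∧ IsUn E w u := by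
  have := h.ne
  obtain ⟨g, ⟨h1, h2, h3⟩, h4⟩ := hit
  obtain ⟨w, hw, hw2⟩ := h2 n m u ((hm n).2 (Or.inr rfl)) hm h4
  -- drop pairs with first coordinate m
  obtain ⟨g', hg'⟩ := h.sep (fun p => ∃ k x, IsPair E p k x ∧ (E k n ∨ k = n))
    (.ex (.ex (.and (.isPair (.var _) (.var _) (.var _)) (.or (.mem (.var _) (.const _))
      (.eq (.var _) (.const _)))))) g
  have happ : ∀ k x, App E g' k x ↔ (App E g k x ∧ (E k n ∨ k = n)) := by
    intro k x
    constructor
    · rintro ⟨p, hp, hp2⟩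
      obtain ⟨hpg, k', x', hp3, hk'⟩ := (hg' p).1 hp
      obtain ⟨rfl, rfl⟩ := pair_inj h hp2 hp3
      exact ⟨⟨p, hpg, hp2⟩, hk'⟩
    · rintro ⟨⟨p, hp, hp2⟩, hk⟩
      exact ⟨p, (hg' p).2 ⟨hp, k, x, hp2, hk⟩, hp2⟩
  refine ⟨w, ⟨g', ⟨?_, ?_, ?_⟩, (happ n w).2 ⟨hw, Or.inr rfl⟩⟩, hw2⟩
  · intro e x he hex
    exact h1 e x he ((happ e x).1 hex).1
  · intro k k' x hk hk' hx
    obtain ⟨w', hw', hw2'⟩ := h2 k k' x ((hm k).2 (Or.inl hk)) hk' ((happ k' x).1 hx).1
    exact ⟨w', (happ k w').2 ⟨hw', Or.inl hk⟩, hw2'⟩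
  · intro k x hx
    exact ((happ k x).1 hx).2

theorem it_exists (h : ZF E) (a : K) : ∀ n, IsNat E n → ∃ u, It E a n u := by
  have := h.ne
  refine h.induction _ (.ex (.it (.const _) (.var _) (.var _))) ?_ ?_
  · intro e he
    obtain ⟨p, hp⟩ := h.exists_pair e a
    obtain ⟨g, hg⟩ := h.pairing p p
    have happ : ∀ k x, App E g k x ↔ (k = e ∧ x = a) := by
      intro k x
      constructor
      · rintro ⟨q, hq, hq2⟩
        have : q = p := by rcases (hg q).1 hq with h1 | h1 <;> exact h1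
        subst this
        obtain ⟨rfl, rfl⟩ := pair_inj h hp hq2
        exact ⟨rfl, rfl⟩
      · rintro ⟨rfl, rfl⟩
        exact ⟨p, (hg p).2 (Or.inl rfl), hp⟩
    refine ⟨a, g, ⟨?_, ?_, ?_⟩, (happ e a).2 ⟨rfl, rfl⟩⟩
    · intro e' u _ hu; exact ((happ e' u).1 hu).2
    · intro k k' u hk; exact absurd hk (he k)
    · intro k u hu; exact Or.inr ((happ k u).1 hu).1
  · intro n m hn hm ih
    obtain ⟨w, g, ⟨h1, h2, h3⟩, h4⟩ := ih
    obtain ⟨u, hu⟩ := h.union w
    obtain ⟨p, hp⟩ := h.exists_pair m u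
    obtain ⟨g', hg'⟩ := h.adjoin g p
    have happ := app_adjoin h hp hg'
    have hnm : E n m := (hm n).2 (Or.inr rfl)
    have hnn : ¬ E n n := h.not_mem_self n
    refine ⟨u, g', ⟨?_, ?_, ?_⟩, (happ m u).2 (Or.inr ⟨rfl, rfl⟩)⟩
    · intro e x he hx
      rcases (happ e x).1 hx with h5 | ⟨rfl, rfl⟩
      · exact h1 e x he h5
      · exact absurd hnm (he n)
    · intro k k' x hk hk' hx
      rcases (hm k).1 hk with h5 | rfl
      · rcases (happ k' x).1 hx with h6 | ⟨rfl, rfl⟩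
        · obtain ⟨w', hw', hw2'⟩ := h2 k k' x h5 hk' h6
          exact ⟨w', (happ k w').2 (Or.inl hw'), hw2'⟩
        · -- k + 1 = m = n + 1 with k ∈ n: impossible
          exfalso
          rcases nat_succ_le h hn k h5 k' hk' with h6 | h6
          · exact h.not_mem_self n (nat_trans h hn k' h6 n hnm)
          · rw [h6] at hnm; exact hnn hnm
      · rcases (happ k' x).1 hx with h6 | ⟨rfl, rfl⟩
        · exfalso
          have : k' = m := succ_unique h hk' hm
          subst this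
          rcases h3 k' x h6 with h7 | h7
          · exact hnn (nat_trans h hn k' h7 k hnm)
          · rw [h7] at hnm; exact hnn hnm
        · exact ⟨w, (happ k w).2 (Or.inl h4), hu⟩
    · intro k x hx
      rcases (happ k x).1 hx with h5 | ⟨rfl, rfl⟩
      · left
        rw [hm k]
        exact h3 k x h5
      · exact Or.inr rfl

theorem it_unique (h : ZF E) (a : K) : ∀ n, IsNat E n →
    ∀ u u', It E a n u → It E a n u' → u = u' := by
  have := h.ne
  refine h.induction _ (.all (.all (.imp (.it (.const _) (.var _) (.var _))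
    (.imp (.it (.const _) (.var _) (.var _)) (.eq (.var _) (.var _)))))) ?_ ?_
  · rintro e he u u' ⟨g, hg, hu⟩ ⟨g', hg', hu'⟩
    rw [hg.1 e u he hu, hg'.1 e u' he hu']
  · intro n m hn hm ih u u' hu hu'
    obtain ⟨w, hw, hw2⟩ := it_pred h hn hm hu
    obtain ⟨w', hw', hw2'⟩ := it_pred h hn hm hu'
    have := ih w w' hw hw'
    subst this
    exact isUn_unique h hw2 hw2'

theorem it_succ (h : ZF E) {a n m u u' : K} (hn : IsNat E n) (hm : IsSucc E n m)
    (hu : It E a n u) (hu' : IsUn E u u') : It E a m u' := by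
  obtain ⟨u2, hu2⟩ := it_exists h a m (nat_succ h hn hm)
  obtain ⟨w, hw, hw2⟩ := it_pred h hn hm hu2
  have := it_unique h a n hn w u hw hu
  subst this
  rw [isUn_unique h hu' hw2]
  exact hu2

theorem exists_transitive (h : ZF E) (a : K) : ∃ T, E a T ∧ ∀ x, E x T → Sub E x T := by
  have := h.ne
  obtain ⟨W, hW⟩ := h.omega
  obtain ⟨Z, hZ⟩ := h.repl (fun n u => It E a n u) (.it (.const _) (.var _) (.var _)) W
    (fun n hn => by
      obtain ⟨u, hu⟩ := it_exists h a n ((hW n).1 hn)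
      exact ⟨u, hu, fun u' hu' => it_unique h a n ((hW n).1 hn) u' u hu' hu⟩)
  obtain ⟨T, hT⟩ := h.union Z
  obtain ⟨T', hT'⟩ := h.adjoin T a
  obtain ⟨e, he⟩ := h.exists_empty
  have he0 := nat_zero he h
  have haT : Sub E a T := by
    intro z hz
    obtain ⟨u, g, hg, hu⟩ := it_exists h a e he0
    have : u = a := hg.1 e u he hu
    subst this
    exact (hT z).2 ⟨u, (hZ u).2 ⟨e, (hW e).2 he0, g, hg, hu⟩, hz⟩
  have hTT : ∀ x, E x T → Sub E x T := by
    intro x hx z hz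
    obtain ⟨u, hu, hxu⟩ := (hT x).1 hx
    obtain ⟨n, hn, hnu⟩ := (hZ u).1 hu
    have hn' := (hW n).1 hn
    obtain ⟨m, hm⟩ := h.adjoin n n
    obtain ⟨u', hu'⟩ := h.union u
    have := it_succ h hn' hm hnu hu'
    exact (hT z).2 ⟨u', (hZ u').2 ⟨m, (hW m).2 (nat_succ h hn' hm), this⟩,
      (hu' z).2 ⟨x, hxu, hz⟩⟩
  refine ⟨T', (hT' a).2 (Or.inr rfl), fun x hx z hz => (hT' z).2 ?_⟩
  rcases (hT' x).1 hx with h1 | rfl
  · exact Or.inl (hTT x h1 z hz)
  · exact Or.inl (haT z hz)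

/-- every set belongs to a level -/
theorem exists_lev (h : ZF E) (a : K) : ∃ s, Lev E s ∧ E a s := by
  have := h.ne
  by_contra hcon
  obtain ⟨T, haT, hT⟩ := exists_transitive h a
  obtain ⟨U, hU⟩ := h.sep (fun x => ¬ ∃ s, Lev E s ∧ E x s)
    (.not (.ex (.and (.lev (.var _)) (.mem (.var _) (.var _))))) T
  obtain ⟨x, hxU, hx⟩ := h.foundation U ⟨a, (hU a).2 ⟨haT, hcon⟩⟩
  obtain ⟨hxT, hxl⟩ := (hU x).1 hxU
  have hy : ∀ y, E y x → ∃ s, Lev E s ∧ E y s := by
    intro y hyx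
    by_contra hcon'
    exact hx y hyx ((hU y).2 ⟨hT x hxT y hyx, hcon'⟩)
  -- the least levels
  obtain ⟨L, hL⟩ := h.repl (fun y l => (Lev E l ∧ E y l) ∧ ∀ s, Lev E s → E y s →
      (s = l ∨ E l s))
    (.and (.and (.lev (.var _)) (.mem (.var _) (.var _)))
      (.all (.imp (.lev (.var _)) (.imp (.mem (.var _) (.var _)) (.or (.eq (.var _) (.var _))
        (.mem (.var _) (.var _))))))) x
    (fun y hyx => exists_least h (fun s => E y s) (.mem (.const _) (.var _)) (hy y hyx))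
  have hLlev : ∀ l, E l L → Lev E l := by
    intro l hl
    obtain ⟨y, _, hy2⟩ := (hL l).1 hl
    exact hy2.1.1
  obtain ⟨u, hu⟩ := h.union L
  obtain ⟨u', hu'⟩ := h.binUnion u L
  obtain ⟨H, hH⟩ := h.sep (fun r => Lev E r) (.lev (.var _)) u'
  have hHiff : ∀ r, E r H ↔ (Lev E r ∧ (E r L ∨ ∃ l, E l L ∧ E r l)) := by
    intro r
    rw [hH r, hu' r, hu r]
    constructor
    · rintro ⟨h1 | h1, h2⟩
      · exact ⟨h2, Or.inr h1⟩
      · exact ⟨h2, Or.inl h1⟩
    · rintro ⟨h2, h1 | h1⟩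
      · exact ⟨Or.inr h1, h2⟩
      · exact ⟨Or.inl h1, h2⟩
  have hHist : Hist E H := by
    intro r hr y
    obtain ⟨hrl, hr2⟩ := (hHiff r).1 hr
    constructor
    · intro hyr
      obtain ⟨q, hqr, hql, hyq⟩ := (hrl.iff h y).1 hyr
      refine ⟨q, ⟨hqr, (hHiff q).2 ⟨hql, Or.inr ?_⟩⟩, hyq⟩
      rcases hr2 with h1 | ⟨l, hl, hrl'⟩
      · exact ⟨r, h1, hqr⟩
      · exact ⟨l, hl, (hLlev l hl).trans r hrl' q hqr⟩
    · rintro ⟨c, ⟨hcr, _⟩, hyc⟩
      exact hrl.potent y c hyc hcr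
  obtain ⟨s, hs⟩ := exists_pot h H
  have hsl : Lev E s := ⟨H, hHist, hs⟩
  have hxs : Sub E x s := by
    intro y hyx
    obtain ⟨l, hl, _⟩ := exists_least h (fun s => E y s) (.mem (.const _) (.var _)) (hy y hyx)
    have hlL : E l L := (hL l).2 ⟨y, hyx, hl⟩
    have hlH : E l H := (hHiff l).2 ⟨hl.1.1, Or.inl hlL⟩
    have hls : E l s := (hs l).2 ⟨l, hlH, Sub.refl l⟩
    exact hsl.trans l hls y hl.1.2
  obtain ⟨H', hH'⟩ := h.adjoin H s
  have hHist' : Hist E H' := by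
    intro r hr y
    rcases (hH' r).1 hr with hr1 | hr1
    · constructor
      · intro hyr
        obtain ⟨c, ⟨hc1, hc2⟩, hc3⟩ := (hHist r hr1 y).1 hyr
        exact ⟨c, ⟨hc1, (hH' c).2 (Or.inl hc2)⟩, hc3⟩
      · rintro ⟨c, ⟨hcr, _⟩, hyc⟩
        exact (hHist.lev h hr1).potent y c hyc hcr
    · subst hr1
      constructor
      · intro hyr
        obtain ⟨c, hc, hyc⟩ := (hs y).1 hyr
        exact ⟨c, ⟨(hs c).2 ⟨c, hc, Sub.refl c⟩, (hH' c).2 (Or.inl hc)⟩, hyc⟩
      · rintro ⟨c, ⟨hcr, _⟩, hyc⟩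
        exact hsl.potent y c hyc hcr
  obtain ⟨s', hs'⟩ := exists_pot h H'
  exact hxl ⟨s', ⟨H', hHist', hs'⟩, (hs' x).2 ⟨s, (hH' s).2 (Or.inr rfl), hxs⟩⟩

/-- The Collection scheme holds in every model of ZF. -/
theorem ZF.coll (h : ZF E) : Coll E := by
  have := h.ne
  intro φ v a
  have hdef : ∀ {s t : (ℕ → K) → K}, Tm s → Tm t →
      Dfn E (fun w => Sat E φ (cons (s w) (cons (t w) v))) := by
    intro s t hs ht
    refine (Dfn.fml φ (fun n => match n with
      | 0 => s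
      | 1 => t
      | n + 2 => fun _ => v n) ?_).congr fun w => ?_
    · intro n
      match n with
      | 0 => exact hs
      | 1 => exact ht
      | n + 2 => exact .const _
    · have : (fun n => (match n with
        | 0 => s
        | 1 => t
        | n + 2 => fun _ => v n : (ℕ → K) → K) w) = cons (s w) (cons (t w) v) := by
        funext n
        match n with
        | 0 => rfl
        | 1 => rfl
        | n + 2 => rfl
      rw [this]
  obtain ⟨a', ha'⟩ := h.sep (fun x => ∃ y, Sat E φ (cons x (cons y v)))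
    (.ex (hdef (.var _) (.var _))) a
  obtain ⟨L, hL⟩ := h.repl (fun x l => (Lev E l ∧ ∃ y, E y l ∧ Sat E φ (cons x (cons y v))) ∧
      ∀ s, Lev E s → (∃ y, E y s ∧ Sat E φ (cons x (cons y v))) → (s = l ∨ E l s))
    (.and (.and (.lev (.var _)) (.ex (.and (.mem (.var _) (.var _)) (hdef (.var _) (.var _)))))
      (.all (.imp (.lev (.var _)) (.imp (.ex (.and (.mem (.var _) (.var _))
        (hdef (.var _) (.var _)))) (.or (.eq (.var _) (.var _)) (.mem (.var _) (.var _))))))) a'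
    (fun x hx => exists_least h (fun s => ∃ y, E y s ∧ Sat E φ (cons x (cons y v)))
      (.ex (.and (.mem (.var _) (.var _)) (hdef (.const _) (.var _)))) (by
        obtain ⟨y, hy⟩ := ((ha' x).1 hx).2
        obtain ⟨s, hs, hys⟩ := exists_lev h y
        exact ⟨s, hs, y, hys, hy⟩))
  obtain ⟨b, hb⟩ := h.union L
  refine ⟨b, fun x hx hy => ?_⟩
  have hx' : E x a' := (ha' x).2 ⟨hx, hy⟩
  obtain ⟨l, hl, _⟩ := exists_least h (fun s => ∃ y, E y s ∧ Sat E φ (cons x (cons y v)))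
      (.ex (.and (.mem (.var _) (.var _)) (hdef (.const _) (.var _)))) (by
        obtain ⟨y, hy⟩ := hy
        obtain ⟨s, hs, hys⟩ := exists_lev h y
        exact ⟨s, hs, y, hys, hy⟩)
  obtain ⟨y, hyl, hy2⟩ := hl.1.2
  exact ⟨y, (hb y).2 ⟨l, (hL l).2 ⟨x, hx', hl⟩, hyl⟩, hy2⟩

end Pool.Agent.H83R3.BSPT
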