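import Pool.Agent.H83R3.BSPT.Internal

set_option autoImplicit false

namespace Pool.Agent.H83R3.BSPT

variable {K : Type} {E : K → K → Prop}

/-- first `m` values from `v`, the rest from `u` -/
def cat (m : ℕ) (v u : ℕ → K) : ℕ → K := fun n => if n < m then v n else u (n - m)

theorem cat_lt {m n : ℕ} (v u : ℕ → K) (h : n < m) : cat m v u n = v n := if_pos h

theorem cat_add (m n : ℕ) (v u : ℕ → K) : cat m v u (m + n) = u n := by
  unfold cat
  rw [if_neg (by omega)]
  congr 1
  omega

theorem cat_zero (v u : ℕ → K) : cat 0 v u = u := by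
  funext n
  simp [cat]

theorem cat_succ (m : ℕ) (v u : ℕ → K) : cat (m + 1) v u = cat m v (cons (v m) u) := by
  funext n
  unfold cat
  by_cases h1 : n < m
  · rw [if_pos (by omega), if_pos h1]
  · rw [if_neg h1]
    by_cases h2 : n = m
    · subst h2
      rw [if_pos (by omega)]
      simp
    · rw [if_neg (by omega)]
      have : n - m = (n - (m + 1)) + 1 := by omega
      rw [this, cons_succ]

theorem cat_update (m : ℕ) (v u : ℕ → K) (a : K) :
    cat (m + 1) (Function.update v m a) u = cat m v (cons a u) := by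
  rw [cat_succ]
  funext n
  unfold cat
  by_cases h1 : n < m
  · rw [if_pos h1, if_pos h1, Function.update_of_ne (by omega)]
  · rw [if_neg h1, if_neg h1, Function.update_self]

theorem Dfn.exTuple [Nonempty K] (m : ℕ) : ∀ {R : (ℕ → K) → Prop}, Dfn E R →
    Dfn E (fun u => ∃ v : ℕ → K, R (cat m v u)) := by
  induction m with
  | zero =>
    intro R hR
    refine hR.congr fun u => ?_
    simp only [cat_zero]
    exact ⟨fun ⟨_, h⟩ => h, fun h => ⟨fun _ => Classical.arbitrary K, h⟩⟩
  | succ m ih =>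
    intro R hR
    have h1 := ih hR
    have h2 : Dfn E (fun u => ∃ a, ∃ v : ℕ → K, R (cat m v (cons a u))) := by
      refine Dfn.ex ?_
      refine h1.congr fun v => ?_
      rw [cons_head_tail]
    refine h2.congr fun u => ?_
    constructor
    · rintro ⟨v, hv⟩
      rw [cat_succ] at hv
      exact ⟨v m, v, hv⟩
    · rintro ⟨a, v, hv⟩
      exact ⟨Function.update v m a, by rw [cat_update]; exact hv⟩

/-- Collection for tuples -/
theorem collTuple [Nonempty K] (h : ZF E) (hc : Coll E) (X : K) (m : ℕ) :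
    ∀ {R : K → (ℕ → K) → Prop}, Dfn E (fun w => R (w 0) (fun n => w (n + 1))) → ∀ u : ℕ → K,
    ∃ Y, ∀ v : ℕ → K, (∀ k, k < m → E (v k) X) → (∃ y, R y (cat m v u)) →
      ∃ y, E y Y ∧ R y (cat m v u) := by
  induction m with
  | zero =>
    intro R hR u
    by_cases hy : ∃ y, R y u
    · obtain ⟨y, hy⟩ := hy
      obtain ⟨Y, hY⟩ := h.pairing y y
      refine ⟨Y, fun v _ _ => ⟨y, (hY y).2 (Or.inl rfl), ?_⟩⟩
      rw [cat_zero]; exact hy
    · refine ⟨Classical.arbitrary K, fun v _ hv => ?_⟩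
      rw [cat_zero] at hv
      exact absurd hv hy
  | succ m ih =>
    intro R hR u
    -- W a Y : the set Y works for the parameter a
    let W : K → K → Prop := fun a Y => ∀ v : ℕ → K, (∀ k, k < m → E (v k) X) →
      (∃ y, R y (cat m v (cons a u))) → ∃ y, E y Y ∧ R y (cat m v (cons a u))
    have hW : Dfn E (fun w => W (w 0) (w 1)) := by
      -- context: a :: Y :: ...
      have h1 : Dfn E (fun w => (∀ k, k < m → E (w k) X) ∧ (∃ y, R y (cat m w (cons (w m) u))) ∧
          ¬ ∃ y, E y (w (m + 1)) ∧ R y (cat m w (cons (w m) u))) := by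
        have ht : ∀ s : ℕ, ∀ n, Tm (fun w : ℕ → K => cat m (fun k => w (k + s))
            (cons (w (m + s)) u) n) := by
          intro s n
          by_cases hn : n < m
          · have : (fun w : ℕ → K => cat m (fun k => w (k + s)) (cons (w (m + s)) u) n) =
                fun w => w (n + s) := by
              funext w; rw [cat_lt _ _ hn]
            rw [this]; exact .var _
          · obtain ⟨j, rfl⟩ := Nat.exists_eq_add_of_le (Nat.le_of_not_lt hn)
            have : (fun w : ℕ → K => cat m (fun k => w (k + s)) (cons (w (m + s)) u) (m + j)) =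
                fun w => cons (w (m + s)) u j := by
              funext w; rw [cat_add]
            rw [this]
            cases j with
            | zero => exact .var _
            | succ j => exact .const _
        refine .and ?_ (.and ?_ (.not ?_))
        · have : ∀ j, Dfn E (fun w : ℕ → K => ∀ k, k < j → E (w k) X) := by
            intro j
            induction j with
            | zero =>
              refine (Dfn.eq (E := E) (.var 0) (.var 0)).congr fun v => ?_
              exact ⟨fun _ => rfl, fun _ k hk => absurd hk (by omega)⟩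
            | succ j ihj =>
              refine (ihj.and (.mem (.var j) (.const X))).congr fun v => ?_
              constructor
              · intro hh
                exact ⟨fun k hk => hh k (by omega), hh j (by omega)⟩
              · rintro ⟨h3, h4⟩ k hk
                by_cases hkj : k = j
                · rw [hkj]; exact h4
                · exact h3 k (by omega)
          exact this m
        · refine .ex ?_
          refine (Dfn.sub hR (fun n => match n with
            | 0 => fun w => w 0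
            | n + 1 => fun w => cat m (fun k => w (k + 1)) (cons (w (m + 1)) u) n) ?_)
          intro n
          cases n with
          | zero => exact .var 0
          | succ n => exact ht 1 n
        · refine .ex (.and (.mem (.var _) (.var _)) ?_)
          refine (Dfn.sub hR (fun n => match n with
            | 0 => fun w => w 0
            | n + 1 => fun w => cat m (fun k => w (k + 1)) (cons (w (m + 1)) u) n) ?_)
          intro n
          cases n with
          | zero => exact .var 0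
          | succ n => exact ht 1 n
      have h2 := (Dfn.exTuple m h1).not
      refine h2.congr fun w => ?_
      have hcat : ∀ v : ℕ → K, cat m (cat m v w) (cons (cat m v w m) u) =
          cat m v (cons (w 0) u) := by
        intro v
        have : cat m v w m = w 0 := by have := cat_add m 0 v w; simpa using this
        rw [this]
        funext n
        by_cases hn : n < m
        · rw [cat_lt _ _ hn, cat_lt _ _ hn, cat_lt _ _ hn]
        · simp only [cat, if_neg hn]
      constructor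
      · rintro hw ⟨v, hv1, hv2, hv3⟩
        rw [hcat] at hv2 hv3
        rw [show cat m v w (m + 1) = w 1 from cat_add m 1 v w] at hv3
        exact hv3 (hw v (fun k hk => by have := hv1 k hk; rwa [cat_lt _ _ hk] at this) hv2)
      · intro hw v hv1 hv2
        by_contra hcon
        apply hw
        refine ⟨v, fun k hk => by rw [cat_lt _ _ hk]; exact hv1 k hk, ?_, ?_⟩
        · rw [hcat]; exact hv2
        · rw [hcat, show cat m v w (m + 1) = w 1 from cat_add m 1 v w]; exact hcon
    obtain ⟨Z, hZ⟩ := coll_dfn hc W hW X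
    obtain ⟨Y, hY⟩ := h.union Z
    refine ⟨Y, fun v hv hy => ?_⟩
    obtain ⟨Ya, hYa, hWa⟩ := hZ (v m) (hv m (by omega)) (ih hR (cons (v m) u))
    rw [cat_succ] at hy ⊢
    obtain ⟨y, hy1, hy2⟩ := hWa v (fun k hk => hv k (by omega)) hy
    exact ⟨y, (hY y).2 ⟨Ya, hYa, hy1⟩, hy2⟩

/-- Conditions: definable directed families of non-empty bounded sets of `m`-tuples. -/
structure Cond (E : K → K → Prop) where
  m : ℕ
  I : K → Prop
  D : K → (ℕ → K) → Prop
  defI : Dfn E (fun v => I (v 0))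
  defD : Dfn E (fun w => D (w m) w)
  loc : ∀ i v w, (∀ k, k < m → v k = w k) → D i v → D i w
  ne : ∃ i, I i
  dir : ∀ i j, I i → I j → ∃ k, I k ∧ ∀ v, D k v → D i v ∧ D j v
  pos : ∀ i, I i → ∃ v, D i v
  bdd : ∃ X, ∀ i v, I i → D i v → ∀ k, k < m → E (v k) X

namespace Cond

variable [Nonempty K]

theorem dI (p : Cond E) {t : (ℕ → K) → K} (ht : Tm t) : Dfn E (fun w => p.I (t w)) :=
  Dfn.sub p.defI (fun _ => t) (fun _ => ht)

theorem dD (p : Cond E) {t : (ℕ → K) → K} (ht : Tm t) (s : ℕ → (ℕ → K) → K)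
    (hs : ∀ n, Tm (s n)) : Dfn E (fun w => p.D (t w) (fun n => s n w)) := by
  refine (Dfn.sub p.defD (fun n => if n = p.m then t else s n) (fun n => ?_)).congr fun w => ?_
  · split_ifs
    · exact ht
    · exact hs n
  · simp only [if_true]
    constructor
    · intro h
      refine p.loc _ _ _ (fun k hk => ?_) h
      rw [if_neg (by omega)]
    · intro h
      refine p.loc _ _ _ (fun k hk => ?_) h
      rw [if_neg (by omega)]

/-- the condition forces `R` -/
def Force (p : Cond E) (R : (ℕ → K) → Prop) : Prop := ∃ i, p.I i ∧ ∀ v, p.D i v → R v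

/-- `q` extends `p` -/
def Ext (p q : Cond E) : Prop :=
  p.m ≤ q.m ∧ ∀ i, p.I i → ∃ j, q.I j ∧ ∀ v, q.D j v → p.D i v

omit [Nonempty K] in
theorem Ext.refl (p : Cond E) : Ext p p := ⟨le_refl _, fun i hi => ⟨i, hi, fun _ h => h⟩⟩

omit [Nonempty K] in
theorem Ext.trans {p q r : Cond E} (h1 : Ext p q) (h2 : Ext q r) : Ext p r := by
  refine ⟨h1.1.trans h2.1, fun i hi => ?_⟩
  obtain ⟨j, hj, hj2⟩ := h1.2 i hi
  obtain ⟨k, hk, hk2⟩ := h2.2 j hj
  exact ⟨k, hk, fun v hv => hj2 v (hk2 v hv)⟩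

omit [Nonempty K] in
theorem Force.mono {p q : Cond E} {R : (ℕ → K) → Prop} (h : p.Force R) (h1 : Ext p q) :
    q.Force R := by
  obtain ⟨i, hi, hR⟩ := h
  obtain ⟨j, hj, hj2⟩ := h1.2 i hi
  exact ⟨j, hj, fun v hv => hR v (hj2 v hv)⟩

omit [Nonempty K] in
theorem Force.and {p : Cond E} {R S : (ℕ → K) → Prop} (h : p.Force R) (h1 : p.Force S) :
    p.Force (fun v => R v ∧ S v) := by
  obtain ⟨i, hi, hR⟩ := h
  obtain ⟨j, hj, hS⟩ := h1
  obtain ⟨k, hk, hk2⟩ := p.dir i j hi hj
  exact ⟨k, hk, fun v hv => ⟨hR v (hk2 v hv).1, hS v (hk2 v hv).2⟩⟩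

omit [Nonempty K] in
theorem Force.imp {p : Cond E} {R S : (ℕ → K) → Prop} (h : p.Force R) (h1 : ∀ v, R v → S v) :
    p.Force S := by
  obtain ⟨i, hi, hR⟩ := h
  exact ⟨i, hi, fun v hv => h1 v (hR v hv)⟩

omit [Nonempty K] in
theorem Force.exists {p : Cond E} {R : (ℕ → K) → Prop} (h : p.Force R) : ∃ v, R v := by
  obtain ⟨i, hi, hR⟩ := h
  obtain ⟨v, hv⟩ := p.pos i hi
  exact ⟨v, hR v hv⟩

/-- The general extension construction. -/
def mk2 (h : ZF E) (p : Cond E) (m' : ℕ) (hm : p.m ≤ m') (J : K → Prop)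
    (G : K → (ℕ → K) → Prop)
    (defJ : ∀ {t : (ℕ → K) → K}, Tm t → Dfn E (fun w => J (t w)))
    (defG : ∀ {t : (ℕ → K) → K} (s : ℕ → (ℕ → K) → K), Tm t → (∀ n, Tm (s n)) →
      Dfn E (fun w => G (t w) (fun n => s n w)))
    (locG : ∀ j v w, (∀ k, k < m' → v k = w k) → G j v → G j w)
    (neJ : ∃ j, J j)
    (dirG : ∀ i j, J i → J j → ∃ k, J k ∧ ∀ v, G k v → G i v ∧ G j v)
    (pos : ∀ i j, p.I i → J j → ∃ v, p.D i v ∧ G j v)
    (bdd : ∃ X, ∀ j v, J j → G j v → ∀ k, p.m ≤ k → k < m' → E (v k) X) : Cond E where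
  m := m'
  I z := ∃ i j, IsPair E z i j ∧ p.I i ∧ J j
  D z v := ∃ i j, IsPair E z i j ∧ p.I i ∧ J j ∧ p.D i v ∧ G j v
  defI := .ex (.ex (.and (.isPair (.var _) (.var _) (.var _)) (.and (p.dI (.var _))
    (defJ (.var _)))))
  defD := .ex (.ex (.and (.isPair (.var _) (.var _) (.var _)) (.and (p.dI (.var _))
    (.and (defJ (.var _)) (.and (p.dD (.var _) (fun n w => w (n + 1 + 1)) (fun _ => .var _))
      (defG (fun n w => w (n + 1 + 1)) (.var _) (fun _ => .var _)))))))
  loc := by
    rintro z v w hvw ⟨i, j, h1, h2, h3, h4, h5⟩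
    exact ⟨i, j, h1, h2, h3, p.loc i v w (fun k hk => hvw k (by omega)) h4, locG j v w hvw h5⟩
  ne := by
    obtain ⟨i, hi⟩ := p.ne
    obtain ⟨j, hj⟩ := neJ
    obtain ⟨z, hz⟩ := h.exists_pair i j
    exact ⟨z, i, j, hz, hi, hj⟩
  dir := by
    rintro z z' ⟨i, j, hz, hi, hj⟩ ⟨i', j', hz', hi', hj'⟩
    obtain ⟨i2, hi2, hi3⟩ := p.dir i i' hi hi'
    obtain ⟨j2, hj2, hj3⟩ := dirG j j' hj hj'
    obtain ⟨z2, hz2⟩ := h.exists_pair i2 j2
    refine ⟨z2, ⟨i2, j2, hz2, hi2, hj2⟩, ?_⟩
    rintro v ⟨i3, j3, h1, h2, h3, h4, h5⟩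
    obtain ⟨rfl, rfl⟩ := pair_inj h hz2 h1
    exact ⟨⟨i, j, hz, hi, hj, (hi3 v h4).1, (hj3 v h5).1⟩,
      ⟨i', j', hz', hi', hj', (hi3 v h4).2, (hj3 v h5).2⟩⟩
  pos := by
    rintro z ⟨i, j, hz, hi, hj⟩
    obtain ⟨v, hv1, hv2⟩ := pos i j hi hj
    exact ⟨v, i, j, hz, hi, hj, hv1, hv2⟩
  bdd := by
    obtain ⟨X, hX⟩ := p.bdd
    obtain ⟨Y, hY⟩ := bdd
    obtain ⟨Z, hZ⟩ := h.binUnion X Y
    refine ⟨Z, ?_⟩
    rintro z v _ ⟨i, j, hz, hi, hj, h1, h2⟩ k hk
    rw [hZ]
    by_cases hkm : k < p.m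
    · exact Or.inl (hX i v hi h1 k hkm)
    · exact Or.inr (hY j v hj h2 k (by omega) hk)

theorem mk2_ext (h : ZF E) (p : Cond E) (m' : ℕ) (hm : p.m ≤ m') (J : K → Prop)
    (G : K → (ℕ → K) → Prop) (defJ) (defG) (locG) (neJ) (dirG) (pos) (bdd) :
    Ext p (mk2 h p m' hm J G defJ defG locG neJ dirG pos bdd) := by
  refine ⟨hm, fun i hi => ?_⟩
  obtain ⟨j, hj⟩ := neJ
  obtain ⟨z, hz⟩ := h.exists_pair i j
  refine ⟨z, ⟨i, j, hz, hi, hj⟩, ?_⟩
  rintro v ⟨i', j', h1, h2, h3, h4, h5⟩
  obtain ⟨rfl, rfl⟩ := pair_inj h hz h1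
  exact h4

theorem mk2_force (h : ZF E) (p : Cond E) (m' : ℕ) (hm : p.m ≤ m') (J : K → Prop)
    (G : K → (ℕ → K) → Prop) (defJ) (defG) (locG) (neJ) (dirG) (pos) (bdd) (j : K) (hj : J j) :
    (mk2 h p m' hm J G defJ defG locG neJ dirG pos bdd).Force (G j) := by
  obtain ⟨i, hi⟩ := p.ne
  obtain ⟨z, hz⟩ := h.exists_pair i j
  refine ⟨z, ⟨i, j, hz, hi, hj⟩, ?_⟩
  rintro v ⟨i', j', h1, h2, h3, h4, h5⟩
  obtain ⟨rfl, rfl⟩ := pair_inj h hz h1
  exact h5

end Cond

end Pool.Agent.H83R3.BSPT
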