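import Mathlib

set_option autoImplicit false

/-!
Definitions: formulas of the language of set theory, satisfaction, the theory ZF and the
theory BSPT' as properties of structures.
-/

namespace Pool.Agent.H83R3.BSPT

/-- Formulas of the language of set theory (de Bruijn indices: the quantifier binds index 0). -/
inductive Fml : Type
  | mem : ℕ → ℕ → Fml
  | eq : ℕ → ℕ → Fml
  | bot : Fml
  | imp : Fml → Fml → Fml
  | all : Fml → Fml

/-- The assignment with value `a` at index 0 and `v n` at index `n + 1`. -/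
def cons {K : Type} (a : K) (v : ℕ → K) : ℕ → K
  | 0 => a
  | n + 1 => v n

/-- Satisfaction of a formula in the structure `(K, E)` under an assignment. -/
def Sat {K : Type} (E : K → K → Prop) : Fml → (ℕ → K) → Prop
  | .mem i j, v => E (v i) (v j)
  | .eq i j, v => v i = v j
  | .bot, _ => False
  | .imp φ ψ, v => Sat E φ v → Sat E ψ v
  | .all φ, v => ∀ a : K, Sat E φ (cons a v)

/-- `z` is the successor `y ∪ {y}` of `y`. -/
def IsSucc {K : Type} (E : K → K → Prop) (y z : K) : Prop :=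
  ∀ w, E w z ↔ (E w y ∨ w = y)

/-- `x` is an inductive set: it contains the empty set and is closed under successor. -/
def IsInd {K : Type} (E : K → K → Prop) (x : K) : Prop :=
  (∃ e, E e x ∧ ∀ z, ¬ E z e) ∧ ∀ y, E y x → ∃ z, E z x ∧ IsSucc E y z

/-- `n` is a natural number: it belongs to every inductive set. -/
def IsNat {K : Type} (E : K → K → Prop) (n : K) : Prop :=
  ∀ x, IsInd E x → E n x

/-- `z` is the ordered pair `{{x}, {x, y}}`. -/
def IsPair {K : Type} (E : K → K → Prop) (z x y : K) : Prop :=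
  ∀ w, E w z ↔ ((∀ u, E u w ↔ u = x) ∨ (∀ u, E u w ↔ (u = x ∨ u = y)))

/-- the ordered pair `(x, y)` belongs to `f` -/
def App {K : Type} (E : K → K → Prop) (f x y : K) : Prop :=
  ∃ p, E p f ∧ IsPair E p x y

/-- `f` is (the graph of) a bijection from `n` onto `a`. -/
def IsBij {K : Type} (E : K → K → Prop) (f n a : K) : Prop :=
  (∀ x y, App E f x y → E x n ∧ E y a) ∧
  (∀ x, E x n → ∃ y, App E f x y) ∧
  (∀ y, E y a → ∃ x, App E f x y) ∧
  (∀ x y y', App E f x y → App E f x y' → y = y') ∧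
  (∀ x x' y, App E f x y → App E f x' y → x = x')

/-- `a` is finite: there is a bijection from a natural number onto `a`. -/
def IsFin {K : Type} (E : K → K → Prop) (a : K) : Prop :=
  ∃ n f, IsNat E n ∧ IsBij E f n a

/-- `(K, E)` is a model of ZF. -/
structure ZF {K : Type} (E : K → K → Prop) : Prop where
  ext : ∀ x y, (∀ z, E z x ↔ E z y) → x = y
  foundation : ∀ x, (∃ y, E y x) → ∃ y, E y x ∧ ∀ z, E z y → ¬ E z x
  pairing : ∀ x y, ∃ z, ∀ w, E w z ↔ (w = x ∨ w = y)
  union : ∀ x, ∃ u, ∀ z, E z u ↔ ∃ y, E y x ∧ E z y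
  power : ∀ x, ∃ p, ∀ z, E z p ↔ ∀ w, E w z → E w x
  infinity : ∃ x, IsInd E x
  separation : ∀ (φ : Fml) (v : ℕ → K) (a : K),
    ∃ b, ∀ x, E x b ↔ (E x a ∧ Sat E φ (cons x v))
  replacement : ∀ (φ : Fml) (v : ℕ → K) (a : K),
    (∀ x, E x a → ∃! y, Sat E φ (cons x (cons y v))) →
    ∃ b, ∀ y, E y b ↔ ∃ x, E x a ∧ Sat E φ (cons x (cons y v))

/-- `(K, E, S)` is a model of BSPT', where `S` is the class of standard sets. -/
structure BSPT' {K : Type} (E : K → K → Prop) (S : K → Prop) : Prop where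
  zf : ZF E
  /-- Transfer, for formulas with standard parameters -/
  transfer : ∀ (φ : Fml) (v : ℕ → K), (∀ n, S (v n)) →
    (∀ x, S x → Sat E φ (cons x v)) → ∀ x, Sat E φ (cons x v)
  /-- Nontriviality -/
  nontrivial : ∃ ν, IsNat E ν ∧ ∀ n, S n → IsNat E n → n ≠ ν
  /-- Standard Part -/
  standardPart : ∀ A, (∀ z, E z A → IsNat E z) →
    ∃ B, S B ∧ (∀ z, E z B → IsNat E z) ∧ ∀ n, S n → IsNat E n → (E n B ↔ E n A)
  /-- Boundedness -/
  bounded : ∀ x, ∃ X, S X ∧ E x X
  /-- Bounded Idealization with standard parameters -/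
  idealization : ∀ (φ : Fml) (v : ℕ → K), (∀ n, S (v n)) → ∀ A X, S A → S X →
    ((∀ a, S a → IsFin E a → (∀ y, E y a → E y A) →
        ∃ x, E x X ∧ ∀ y, E y a → Sat E φ (cons x (cons y v))) ↔
      (∃ x, E x X ∧ ∀ y, S y → E y A → Sat E φ (cons x (cons y v))))

end Pool.Agent.H83R3.BSPT
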