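import Pool.Agent.H83R3.BSPT.Cond

set_option autoImplicit false

namespace Pool.Agent.H83R3.BSPT

variable {K : Type} {E : K → K → Prop} [Nonempty K]

theorem dense_decide (h : ZF E) (p : Cond E) (R : (ℕ → K) → Prop) (hR : Dfn E R)
    (hloc : ∀ v w, (∀ k, k < p.m → v k = w k) → R v → R w) :
    ∃ q, Cond.Ext p q ∧ (q.Force R ∨ q.Force (fun v => ¬ R v)) := by
  by_cases hf : p.Force (fun v => ¬ R v)
  · exact ⟨p, Cond.Ext.refl p, Or.inr hf⟩
  · have hpos : ∀ i, p.I i → ∃ v, p.D i v ∧ R v := by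
      intro i hi
      by_contra hcon
      push Not at hcon
      exact hf ⟨i, hi, hcon⟩
    let c : K := Classical.arbitrary K
    refine ⟨Cond.mk2 h p p.m le_rfl (fun j => j = c) (fun _ v => R v)
      (fun ht => .eq ht (.const c)) (fun s _ hs => Dfn.sub hR s hs)
      (fun _ v w hvw => hloc v w hvw) ⟨c, rfl⟩
      (fun i j hi hj => ⟨c, rfl, fun v hv => ⟨hv, hv⟩⟩)
      (fun i j hi _ => hpos i hi) ⟨c, fun j v _ _ k hk hk' => by omega⟩, ?_, ?_⟩
    · exact Cond.mk2_ext ..
    · left
      exact Cond.mk2_force (hj := (rfl : c = c)) ..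

theorem dense_witness (h : ZF E) (hc : Coll E) (p : Cond E) (R : K → (ℕ → K) → Prop)
    (hR : Dfn E (fun w => R (w 0) (fun n => w (n + 1))))
    (hloc : ∀ y v w, (∀ k, k < p.m → v k = w k) → R y v → R y w)
    (hF : p.Force (fun v => ∃ y, R y v)) :
    ∃ q, Cond.Ext p q ∧ q.Force (fun v => R (v p.m) v) := by
  obtain ⟨i0, hi0, hF⟩ := hF
  obtain ⟨X, hX⟩ := p.bdd
  let c : K := Classical.arbitrary K
  obtain ⟨Y, hY⟩ := collTuple h hc X p.m hR (fun _ => c)
  suffices hs : ∃ q, Cond.Ext p q ∧ q.Force (fun v => E (v p.m) Y ∧ R (v p.m) v) by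
    obtain ⟨q, h1, h2⟩ := hs
    exact ⟨q, h1, h2.imp fun v hv => hv.2⟩
  refine ⟨Cond.mk2 h p (p.m + 1) (Nat.le_succ _) (fun j => j = c)
    (fun _ v => E (v p.m) Y ∧ R (v p.m) v)
    (fun ht => .eq ht (.const c)) (fun s _ hs => .and (.mem (hs _) (.const _)) ?_)
    ?_ ⟨c, rfl⟩
    (fun i j hi hj => ⟨c, rfl, fun v hv => ⟨hv, hv⟩⟩)
    ?_ ⟨Y, fun j v _ hv k hk hk' => ?_⟩, ?_, ?_⟩
  · refine Dfn.sub hR (fun n => match n with
      | 0 => s p.m
      | n + 1 => s n) ?_
    intro n
    cases n with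
    | zero => exact hs _
    | succ n => exact hs n
  · rintro _ v w hvw ⟨h1, h2⟩
    have : v p.m = w p.m := hvw p.m (Nat.lt_succ_self _)
    rw [← this]
    exact ⟨h1, hloc _ v w (fun k hk => hvw k (by omega)) h2⟩
  · intro i _ hi _
    obtain ⟨k, hk, hk2⟩ := p.dir i i0 hi hi0
    obtain ⟨v, hv⟩ := p.pos k hk
    obtain ⟨hv1, hv2⟩ := hk2 v hv
    have hcat : ∀ l, l < p.m → v l = cat p.m v (fun _ => c) l := fun l hl => (cat_lt _ _ hl).symm
    obtain ⟨y, hy⟩ := hF v hv2
    obtain ⟨y', hy1, hy2⟩ := hY v (fun l hl => hX i0 v hi0 hv2 l hl)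
      ⟨y, hloc y _ _ hcat hy⟩
    refine ⟨Function.update v p.m y', p.loc i v _ (fun l hl => ?_) hv1, ?_, ?_⟩
    · rw [Function.update_of_ne (by omega)]
    · rw [Function.update_self]; exact hy1
    · rw [Function.update_self]
      refine hloc y' _ _ (fun l hl => ?_) hy2
      rw [cat_lt _ _ hl, Function.update_of_ne (by omega)]
  · have : k = p.m := by omega
    rw [this]
    exact hv.1
  · exact Cond.mk2_ext ..
  · exact Cond.mk2_force (hj := (rfl : c = c)) ..

theorem dense_name (h : ZF E) (p : Cond E) (b : K) :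
    ∃ q, Cond.Ext p q ∧ q.m = p.m + 1 ∧ q.Force (fun v => v p.m = b) := by
  let c : K := Classical.arbitrary K
  obtain ⟨B, hB⟩ := h.pairing b b
  refine ⟨Cond.mk2 h p (p.m + 1) (Nat.le_succ _) (fun j => j = c)
    (fun _ v => v p.m = b)
    (fun ht => .eq ht (.const c)) (fun s _ hs => .eq (hs _) (.const _))
    ?_ ⟨c, rfl⟩
    (fun i j hi hj => ⟨c, rfl, fun v hv => ⟨hv, hv⟩⟩)
    ?_ ⟨B, fun j v _ hv k hk hk' => ?_⟩, ?_, rfl, ?_⟩
  · rintro _ v w hvw h1
    rw [← hvw p.m (Nat.lt_succ_self _)]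
    exact h1
  · intro i _ hi _
    obtain ⟨v, hv⟩ := p.pos i hi
    refine ⟨Function.update v p.m b, p.loc i v _ (fun l hl => ?_) hv, Function.update_self ..⟩
    rw [Function.update_of_ne (by omega)]
  · have : k = p.m := by omega
    rw [this, hv, hB]
    exact Or.inl rfl
  · exact Cond.mk2_ext ..
  · exact (Cond.mk2_force (hj := (rfl : c = c)) ..)

/-- extending to any larger number of coordinates -/
theorem dense_len (h : ZF E) (p : Cond E) (n : ℕ) : ∃ q, Cond.Ext p q ∧ n ≤ q.m := by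
  induction n with
  | zero => exact ⟨p, Cond.Ext.refl p, Nat.zero_le _⟩
  | succ n ih =>
    obtain ⟨q, hq, hn⟩ := ih
    obtain ⟨r, hr, hrm, _⟩ := dense_name h q (Classical.arbitrary K)
    exact ⟨r, hq.trans hr, by omega⟩

theorem dense_ideal (h : ZF E) (p : Cond E) (R : K → K → Prop)
    (hR : Dfn E (fun w => R (w 0) (w 1))) (A X : K)
    (hyp : ∀ a, IsFin E a → (∀ y, E y a → E y A) → ∃ x, E x X ∧ ∀ y, E y a → R x y) :
    ∃ q, Cond.Ext p q ∧ q.Force (fun v => E (v p.m) X) ∧
      ∀ y, E y A → q.Force (fun v => R (v p.m) y) := by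
  have defR : ∀ {s t : (ℕ → K) → K}, Tm s → Tm t → Dfn E (fun w => R (s w) (t w)) := by
    intro s t hs ht
    exact Dfn.sub hR (fun n => if n = 0 then s else t) (fun n => by split_ifs <;> assumption)
  have neJ : ∃ j, IsFin E j ∧ ∀ y, E y j → E y A := by
    obtain ⟨e, he⟩ := h.exists_empty
    exact ⟨e, fin_empty h he, fun y hy => absurd hy (he y)⟩
  have main : ∃ q, Cond.Ext p q ∧ ∀ a, IsFin E a → (∀ y, E y a → E y A) →
      q.Force (fun v => E (v p.m) X ∧ ∀ y, E y a → R (v p.m) y) := by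
    refine ⟨Cond.mk2 h p (p.m + 1) (Nat.le_succ _) (fun j => IsFin E j ∧ ∀ y, E y j → E y A)
      (fun a v => E (v p.m) X ∧ ∀ y, E y a → R (v p.m) y)
      (fun ht => .and (.isFin ht) ?_)
      (fun s ht hs => .and (.mem (hs _) (.const _)) ?_)
      ?_ neJ ?_ ?_ ⟨X, fun j v _ hv k hk hk' => ?_⟩, ?_, ?_⟩
    · rename_i t
      refine Dfn.sub (R := fun w => ∀ y, E y (w 0) → E y A) ?_ (fun _ => t) (fun _ => ht)
      exact .all (.imp (.mem (.var _) (.var _)) (.mem (.var _) (.const _)))
    · rename_i t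
      refine Dfn.sub (R := fun w => ∀ y, E y (w 0) → R (w 1) y) ?_
        (fun n => if n = 0 then t else s p.m) (fun n => by split_ifs; exacts [ht, hs _])
      exact .all (.imp (.mem (.var _) (.var _)) (defR (.var _) (.var _)))
    · rintro a v w hvw ⟨h1, h2⟩
      rw [← hvw p.m (Nat.lt_succ_self _)]
      exact ⟨h1, h2⟩
    · rintro a b ⟨ha, ha2⟩ ⟨hb, hb2⟩
      obtain ⟨c, hc⟩ := h.binUnion a b
      refine ⟨c, ⟨fin_union h ha hb hc, fun y hy => ?_⟩, fun v hv => ⟨⟨hv.1, fun y hy => ?_⟩,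
        ⟨hv.1, fun y hy => ?_⟩⟩⟩
      · rcases (hc y).1 hy with h1 | h1
        · exact ha2 y h1
        · exact hb2 y h1
      · exact hv.2 y ((hc y).2 (Or.inl hy))
      · exact hv.2 y ((hc y).2 (Or.inr hy))
    · rintro i a hi ⟨ha, ha2⟩
      obtain ⟨v, hv⟩ := p.pos i hi
      obtain ⟨x, hx, hx2⟩ := hyp a ha ha2
      refine ⟨Function.update v p.m x, p.loc i v _ (fun l hl => ?_) hv, ?_, ?_⟩
      · rw [Function.update_of_ne (by omega)]
      · rw [Function.update_self]; exact hx
      · rw [Function.update_self]; exact hx2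
    · have : k = p.m := by omega
      rw [this]
      exact hv.1
    · exact Cond.mk2_ext ..
    · intro a ha ha2
      exact (Cond.mk2_force (hj := (⟨ha, ha2⟩ : IsFin E a ∧ ∀ y, E y a → E y A)) ..)
  obtain ⟨q, hq, hq2⟩ := main
  obtain ⟨e, he, he2⟩ := neJ
  refine ⟨q, hq, (hq2 e he he2).imp (fun v hv => hv.1), fun y hy => ?_⟩
  obtain ⟨e, he⟩ := h.exists_empty
  obtain ⟨a, ha⟩ := h.adjoin e y
  have hya : E y a := (ha y).2 (Or.inr rfl)
  refine (hq2 a (fin_adjoin h (fin_empty h he) ha) ?_).imp (fun v hv => hv.2 y hya)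
  intro z hz
  rcases (ha z).1 hz with h1 | h1
  · exact absurd h1 (he z)
  · rw [h1]; exact hy

/-- the set of values of the coordinate `k` compatible with the condition -/
theorem dfn_pos (p : Cond E) (k : ℕ) (hk : k < p.m) (S : K → (ℕ → K) → Prop)
    (hS : Dfn E (fun w => S (w 0) (fun n => w (n + 1)))) :
    Dfn E (fun u => ∀ i, p.I i → ∃ v, p.D i v ∧ S (v k) u) := by
  have h1 : Dfn E (fun w => p.D (w p.m) w ∧ S (w k) (fun n => w (p.m + (n + 1)))) := by
    refine .and p.defD ?_
    refine Dfn.sub hS (fun n => match n with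
      | 0 => fun w => w k
      | n + 1 => fun w => w (p.m + (n + 1))) ?_
    intro n
    cases n with
    | zero => exact .var _
    | succ n => exact .var _
  have h2 := Dfn.exTuple p.m h1
  refine Dfn.all (.imp (p.dI (.var _)) ?_)
  refine h2.congr fun u => ?_
  refine exists_congr fun v => ?_
  have e1 : cat p.m v u p.m = u 0 := by have := cat_add p.m 0 v u; simpa using this
  have e2 : cat p.m v u k = v k := cat_lt _ _ hk
  have e3 : (fun n => cat p.m v u (p.m + (n + 1))) = fun n => u (n + 1) := by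
    funext n; rw [cat_add]
  rw [e1, e2, e3]
  refine and_congr ⟨fun h => p.loc _ _ _ (fun l hl => (cat_lt _ _ hl).symm) h,
    fun h => p.loc _ _ _ (fun l hl => cat_lt _ _ hl) h⟩ Iff.rfl

theorem dense_fin (h : ZF E) (p : Cond E) (k : ℕ) (hk : k < p.m) (a : K) (ha : IsFin E a) :
    ∃ q, Cond.Ext p q ∧ (q.Force (fun v => ¬ E (v k) a) ∨
      ∃ b, E b a ∧ q.Force (fun v => v k = b)) := by
  by_cases hf : p.Force (fun v => ¬ E (v k) a)
  · exact ⟨p, Cond.Ext.refl p, Or.inl hf⟩
  have hpos : ∀ i, p.I i → ∃ v, p.D i v ∧ E (v k) a := by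
    intro i hi
    by_contra hcon
    push Not at hcon
    exact hf ⟨i, hi, hcon⟩
  have key : ∀ a, IsFin E a → (∀ i, p.I i → ∃ v, p.D i v ∧ E (v k) a) →
      ∃ b, E b a ∧ ∀ i, p.I i → ∃ v, p.D i v ∧ v k = b := by
    refine fin_induction h _ ?_ ?_ ?_
    · refine .imp ?_ (.ex (.and (.mem (.var _) (.var _)) ?_))
      · exact dfn_pos p k hk (fun x u => E x (u 0)) (.mem (.var _) (.var _))
      · exact dfn_pos p k hk (fun x u => x = u 0) (.eq (.var _) (.var _))
    · intro e he hpos
      obtain ⟨i, hi⟩ := p.ne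
      obtain ⟨v, _, hv⟩ := hpos i hi
      exact absurd hv (he _)
    · intro a x a' ha' ih hpos
      by_cases hx : ∀ i, p.I i → ∃ v, p.D i v ∧ v k = x
      · exact ⟨x, (ha' x).2 (Or.inr rfl), hx⟩
      · push Not at hx
        obtain ⟨i0, hi0, hx0⟩ := hx
        obtain ⟨b, hb, hb2⟩ := ih (fun i hi => by
          obtain ⟨j, hj, hj2⟩ := p.dir i i0 hi hi0
          obtain ⟨v, hv1, hv2⟩ := hpos j hj
          obtain ⟨hv3, hv4⟩ := hj2 v hv1
          refine ⟨v, hv3, ?_⟩
          rcases (ha' (v k)).1 hv2 with h1 | h1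
          · exact h1
          · exact absurd h1 (hx0 v hv4))
        exact ⟨b, (ha' b).2 (Or.inl hb), hb2⟩
  obtain ⟨b, hb, hb2⟩ := key a ha hpos
  let c : K := Classical.arbitrary K
  refine ⟨Cond.mk2 h p p.m le_rfl (fun j => j = c) (fun _ v => v k = b)
    (fun ht => .eq ht (.const c)) (fun s _ hs => .eq (hs _) (.const _))
    (fun _ v w hvw hv => by rw [← hvw k hk]; exact hv) ⟨c, rfl⟩
    (fun i j hi hj => ⟨c, rfl, fun v hv => ⟨hv, hv⟩⟩)
    (fun i j hi _ => hb2 i hi) ⟨c, fun j v _ _ k hk hk' => by omega⟩, ?_, ?_⟩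
  · exact Cond.mk2_ext ..
  · right
    exact ⟨b, hb, Cond.mk2_force (hj := (rfl : c = c)) ..⟩

/-- `x` and `t` have the same elements among the elements of `n` -/
def Agree (E : K → K → Prop) (x t n : K) : Prop := ∀ l, E l n → (E l x ↔ E l t)

omit [Nonempty K] in
theorem ud_agree (i j k : ℕ) : UD (fun {_} E v => Agree E (v i) (v j) (v k)) := by
  unfold Agree
  exact .all (.imp (.mem _ _) (.iff (.mem _ _) (.mem _ _)))

theorem Dfn.agree {r s t : (ℕ → K) → K} (hr : Tm r) (hs : Tm s) (ht : Tm t) :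
    Dfn E (fun v => Agree E (r v) (s v) (t v)) :=
  sub (R := fun v => Agree E (v 0) (v 1) (v 2)) (ofUD (ud_agree 0 1 2))
    (fun n => if n = 0 then r else if n = 1 then s else t)
    (fun n => by split_ifs <;> assumption)

theorem dense_std (h : ZF E) (p : Cond E) (k : ℕ) (hk : k < p.m) :
    ∃ q B, Cond.Ext p q ∧ (∀ z, E z B → IsNat E z) ∧
      ∀ j, IsNat E j → q.Force (fun v => (E j (v k) ↔ E j B)) := by
  -- the set t, read up to j, can be continued by leaving out j
  let Lo : K → K → Prop := fun t j => ∀ i, p.I i → ∃ v, p.D i v ∧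
    (Agree E (v k) t j ∧ ¬ E j (v k))
  have dLo0 : Dfn E (fun u => Lo (u 0) (u 1)) :=
    dfn_pos p k hk (fun x u => Agree E x (u 0) (u 1) ∧ ¬ E (u 1) x)
      (.and (.agree (.var _) (.var _) (.var _)) (.not (.mem (.var _) (.var _))))
  have dLo : ∀ {s t : (ℕ → K) → K}, Tm s → Tm t → Dfn E (fun w => Lo (s w) (t w)) := by
    intro s t hs ht
    exact Dfn.sub dLo0 (fun n => if n = 0 then s else t) (fun n => by split_ifs <;> assumption)
  let Run : K → K → Prop := fun t n => ∀ j, E j n → (E j t ↔ ¬ Lo t j)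
  have dRun0 : Dfn E (fun u => Run (u 0) (u 1)) :=
    .all (.imp (.mem (.var _) (.var _)) (.iff (.mem (.var _) (.var _))
      (.not (dLo (.var _) (.var _)))))
  have dRun : ∀ {s t : (ℕ → K) → K}, Tm s → Tm t → Dfn E (fun w => Run (s w) (t w)) := by
    intro s t hs ht
    exact Dfn.sub dRun0 (fun n => if n = 0 then s else t) (fun n => by split_ifs <;> assumption)
  let Good : K → K → Prop := fun t n => ∀ i, p.I i → ∃ v, p.D i v ∧ Agree E (v k) t n
  have dGood0 : Dfn E (fun u => Good (u 0) (u 1)) :=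
    dfn_pos p k hk (fun x u => Agree E x (u 0) (u 1)) (.agree (.var _) (.var _) (.var _))
  have dGood : ∀ {s t : (ℕ → K) → K}, Tm s → Tm t → Dfn E (fun w => Good (s w) (t w)) := by
    intro s t hs ht
    exact Dfn.sub dGood0 (fun n => if n = 0 then s else t) (fun n => by split_ifs <;> assumption)
  have Lo_congr : ∀ t t' j, (∀ l, E l j → (E l t ↔ E l t')) → (Lo t j ↔ Lo t' j) := by
    intro t t' j hl
    have : ∀ x, Agree E x t j ↔ Agree E x t' j := by
      intro x
      refine forall_congr' fun l => ?_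
      constructor
      · intro h1 h2; rw [h1 h2, hl l h2]
      · intro h1 h2; rw [h1 h2, hl l h2]
    simp only [Lo, this]
  -- agreement
  have agr : ∀ n n' t t', IsNat E n → IsNat E n' → Run t n → Run t' n' →
      ∀ j, E j n → E j n' → (E j t ↔ E j t') := by
    intro n n' t t' hn hn' hr hr'
    have key : ∀ j, IsNat E j → ∀ i, E i j → E i n → E i n' → (E i t ↔ E i t') := by
      refine h.induction _ ?_ ?_ ?_
      · exact .all (.imp (.mem (.var _) (.var _)) (.imp (.mem (.var _) (.const _))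
          (.imp (.mem (.var _) (.const _)) (.iff (.mem (.var _) (.const _))
            (.mem (.var _) (.const _))))))
      · intro e he i hi; exact absurd hi (he i)
      · intro j j' hj hjj' ih i hi hin hin'
        rcases (hjj' i).1 hi with h1 | rfl
        · exact ih i h1 hin hin'
        · rw [hr i hin, hr' i hin', Lo_congr t t' i]
          intro l hl
          exact ih l hl (nat_trans h hn i hin l hl) (nat_trans h hn' i hin' l hl)
    intro j hj hj'
    obtain ⟨s, hs⟩ := h.adjoin j j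
    exact key s (nat_succ h (nat_elem h hn j hj) hs) j ((hs j).2 (Or.inr rfl)) hj hj'
  -- existence of approximations
  have exi : ∀ n, IsNat E n → ∃ t, Run t n := by
    refine h.induction _ (.ex (dRun (.var _) (.var _))) ?_ ?_
    · intro e he
      exact ⟨e, fun j hj => absurd hj (he j)⟩
    · intro n m hn hm ih
      obtain ⟨t, ht⟩ := ih
      by_cases hL : Lo t n
      · -- leave out n
        obtain ⟨t', ht'⟩ := h.sep (fun l => l ≠ n) (.not (.eq (.var _) (.const _))) t
        have hag : ∀ l, E l n → (E l t' ↔ E l t) := by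
          intro l hl
          rw [ht' l]
          constructor
          · exact fun h1 => h1.1
          · intro h1
            refine ⟨h1, ?_⟩
            rintro rfl
            exact h.not_mem_self l hl
        refine ⟨t', fun j hj => ?_⟩
        rcases (hm j).1 hj with h1 | rfl
        · rw [hag j h1, ht j h1, Lo_congr t t' j]
          intro l hl
          exact (hag l (nat_trans h hn j h1 l hl)).symm
        · rw [Lo_congr t' t j hag]
          constructor
          · intro h1; exact absurd rfl ((ht' j).1 h1).2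
          · intro h1; exact absurd hL h1
      · obtain ⟨t', ht'⟩ := h.adjoin t n
        have hag : ∀ l, E l n → (E l t' ↔ E l t) := by
          intro l hl
          rw [ht' l]
          constructor
          · rintro (h1 | rfl)
            · exact h1
            · exact absurd hl (h.not_mem_self l)
          · exact Or.inl
        refine ⟨t', fun j hj => ?_⟩
        rcases (hm j).1 hj with h1 | rfl
        · rw [hag j h1, ht j h1, Lo_congr t t' j]
          intro l hl
          exact (hag l (nat_trans h hn j h1 l hl)).symm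
        · rw [Lo_congr t' t j hag]
          constructor
          · intro _; exact hL
          · intro _; exact (ht' j).2 (Or.inr rfl)
  obtain ⟨W, hW⟩ := h.omega
  obtain ⟨B, hB⟩ := h.sep (fun j => ∃ t n, IsNat E n ∧ E j n ∧ Run t n ∧ E j t)
    (.ex (.ex (.and (.isNat (.var _)) (.and (.mem (.var _) (.var _))
      (.and (dRun (.var _) (.var _)) (.mem (.var _) (.var _))))))) W
  have hBt : ∀ n t, IsNat E n → Run t n → ∀ j, E j n → (E j B ↔ E j t) := by
    intro n t hn hr j hj
    rw [hB j]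
    constructor
    · rintro ⟨_, t', n', hn', hj', hr', hjt'⟩
      exact (agr n n' t t' hn hn' hr hr' j hj hj').2 hjt'
    · intro hjt
      exact ⟨(hW j).2 (nat_elem h hn j hj), t, n, hn, hj, hr, hjt⟩
  have hRunB : ∀ n, IsNat E n → Run B n := by
    intro n hn j hj
    obtain ⟨t, ht⟩ := exi n hn
    rw [hBt n t hn ht j hj, ht j hj, Lo_congr t B j]
    intro l hl
    exact (hBt n t hn ht l (nat_trans h hn j hj l hl)).symm
  have hGood : ∀ n, IsNat E n → Good B n := by
    refine h.induction _ (dGood (.const _) (.var _)) ?_ ?_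
    · intro e he i hi
      obtain ⟨v, hv⟩ := p.pos i hi
      exact ⟨v, hv, fun l hl => absurd hl (he l)⟩
    · intro n m hn hm ih
      have hr : E n B ↔ ¬ Lo B n := hRunB m (nat_succ h hn hm) n ((hm n).2 (Or.inr rfl))
      by_cases hL : Lo B n
      · intro i hi
        obtain ⟨v, hv, hv1, hv2⟩ := hL i hi
        refine ⟨v, hv, fun l hl => ?_⟩
        rcases (hm l).1 hl with h1 | rfl
        · exact hv1 l h1
        · exact ⟨fun h1 => absurd h1 hv2, fun h1 => absurd hL (hr.1 h1)⟩
      · have hnB : E n B := hr.2 hL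
        have hL' : ∃ i, p.I i ∧ ∀ v, p.D i v → Agree E (v k) B n → E n (v k) := by
          by_contra hcon
          apply hL
          intro i hi
          by_contra hcon2
          apply hcon
          refine ⟨i, hi, fun v hv hv1 => ?_⟩
          by_contra hv2
          exact hcon2 ⟨v, hv, hv1, hv2⟩
        obtain ⟨i0, hi0, hi1⟩ := hL'
        intro i hi
        obtain ⟨j, hj, hj2⟩ := p.dir i i0 hi hi0
        obtain ⟨v, hv, hv1⟩ := ih j hj
        obtain ⟨hv3, hv4⟩ := hj2 v hv
        refine ⟨v, hv3, fun l hl => ?_⟩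
        rcases (hm l).1 hl with h1 | rfl
        · exact hv1 l h1
        · exact ⟨fun _ => hnB, fun _ => hi1 v hv4 hv1⟩
  refine ⟨Cond.mk2 h p p.m le_rfl (fun j => IsNat E j) (fun n v => Agree E (v k) B n)
    (fun ht => .isNat ht) (fun s ht hs => .agree (hs _) (.const _) ht)
    (fun _ v w hvw hv => by rw [← hvw k hk]; exact hv)
    (by obtain ⟨e, he⟩ := h.exists_empty; exact ⟨e, nat_zero he h⟩)
    ?_
    (fun i n hi hn => hGood n hn i hi)
    ⟨Classical.arbitrary K, fun j v _ _ k hk hk' => by omega⟩, B, ?_, ?_, ?_⟩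
  · intro n n' hn hn'
    rcases nat_trichotomy h hn n' hn' with h1 | h1 | h1
    · exact ⟨n', hn', fun v hv => ⟨fun l hl => hv l (nat_trans h hn' n h1 l hl), hv⟩⟩
    · subst h1
      exact ⟨n, hn, fun v hv => ⟨hv, hv⟩⟩
    · exact ⟨n, hn, fun v hv => ⟨hv, fun l hl => hv l (nat_trans h hn n' h1 l hl)⟩⟩
  · exact Cond.mk2_ext ..
  · intro z hz
    exact (hW z).1 ((hB z).1 hz).1
  · intro j hj
    obtain ⟨n, hn⟩ := h.adjoin j j
    exact (Cond.mk2_force (hj := (nat_succ h hj hn : IsNat E n)) ..).imp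
      (fun v hv => hv j ((hn j).2 (Or.inr rfl)))

end Pool.Agent.H83R3.BSPT
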