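import Pool.Agent.H83R3.BSPT.Density

set_option autoImplicit false

namespace Pool.Agent.H83R3.BSPT

variable {K : Type} {E : K → K → Prop} [Nonempty K]

/-- the assignment given by a list of parameters -/
noncomputable def lv (l : List K) : ℕ → K := fun n => l.getD n (Classical.arbitrary K)

/-- the type of requirements -/
abbrev Req (K : Type) : Type :=
  Fml ⊕ Fml ⊕ K ⊕ ℕ ⊕ (Fml × List K × K × K) ⊕ (ℕ × K)

/-- meeting a requirement -/
def Meets (q : Cond E) : Req K → Prop
  | .inl φ => bd φ ≤ q.m ∧ (q.Force (fun v => Sat E φ v) ∨ q.Force (fun v => ¬ Sat E φ v))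
  | .inr (.inl ψ) => q.Force (fun v => ∀ a, Sat E ψ (cons a v)) ∨
      ∃ k, q.Force (fun v => ¬ Sat E ψ (cons (v k) v))
  | .inr (.inr (.inl b)) => ∃ k, q.Force (fun v => v k = b)
  | .inr (.inr (.inr (.inl k))) => ∃ B, (∀ z, E z B → IsNat E z) ∧
      ∀ j, IsNat E j → q.Force (fun v => (E j (v k) ↔ E j B))
  | .inr (.inr (.inr (.inr (.inl (ψ, l, A, X))))) =>
      (∀ a, IsFin E a → (∀ y, E y a → E y A) →
        ∃ x, E x X ∧ ∀ y, E y a → Sat E ψ (cons x (cons y (lv l)))) →
      ∃ k, q.Force (fun v => E (v k) X) ∧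
        ∀ y, E y A → q.Force (fun v => Sat E ψ (cons (v k) (cons y (lv l))))
  | .inr (.inr (.inr (.inr (.inr (k, a))))) => IsFin E a →
      (q.Force (fun v => ¬ E (v k) a) ∨ ∃ b, E b a ∧ q.Force (fun v => v k = b))

theorem dense_all (h : ZF E) (hc : Coll E) (p : Cond E) (r : Req K) :
    ∃ q, Cond.Ext p q ∧ Meets q r := by
  match r with
  | .inl φ =>
    obtain ⟨q, hq, hn⟩ := dense_len h p (bd φ)
    obtain ⟨q', hq', hd⟩ := dense_decide h q (fun v => Sat E φ v) (.ofUD (.fml φ))
      (fun v w hvw hs => (sat_congr φ v w (fun n hn' => hvw n (by omega))).1 hs)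
    exact ⟨q', hq.trans hq', hn.trans hq'.1, hd⟩
  | .inr (.inl ψ) =>
    obtain ⟨q, hq, hn⟩ := dense_len h p (bd ψ)
    have hloc : ∀ y v w, (∀ k, k < q.m → v k = w k) →
        (Sat E ψ (cons y v) ↔ Sat E ψ (cons y w)) := by
      intro y v w hvw
      refine sat_congr ψ _ _ (fun n hn' => ?_)
      cases n with
      | zero => rfl
      | succ n => exact hvw n (by omega)
    obtain ⟨q', hq', hd⟩ := dense_decide h q (fun v => Sat E (.all ψ) v) (.ofUD (.fml _))
      (fun v w hvw hs a => (hloc a v w hvw).1 (hs a))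
    rcases hd with hd | hd
    · exact ⟨q', hq.trans hq', Or.inl hd⟩
    · have hloc' : ∀ y v w, (∀ k, k < q'.m → v k = w k) →
          (¬ Sat E ψ (cons y v) → ¬ Sat E ψ (cons y w)) := by
        intro y v w hvw h1 h2
        exact h1 ((hloc y v w (fun k hk => hvw k (hk.trans_le hq'.1))).2 h2)
      obtain ⟨q2, hq2, hw⟩ := dense_witness h hc q' (fun y v => ¬ Sat E ψ (cons y v))
        (.not (by
          refine Dfn.congr (Dfn.ofUD (.fml ψ)) fun w => ?_
          rw [cons_head_tail])) hloc'
        (hd.imp fun v hv => by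
          by_contra hcon
          push Not at hcon
          exact hv hcon)
      exact ⟨q2, (hq.trans hq').trans hq2, Or.inr ⟨_, hw⟩⟩
  | .inr (.inr (.inl b)) =>
    obtain ⟨q, hq, _, hf⟩ := dense_name h p b
    exact ⟨q, hq, _, hf⟩
  | .inr (.inr (.inr (.inl k))) =>
    obtain ⟨q, hq, hn⟩ := dense_len h p (k + 1)
    obtain ⟨q', B, hq', hB, hf⟩ := dense_std h q k (by omega)
    exact ⟨q', hq.trans hq', B, hB, hf⟩
  | .inr (.inr (.inr (.inr (.inl (ψ, l, A, X))))) =>
    by_cases hyp : (∀ a, IsFin E a → (∀ y, E y a → E y A) →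
        ∃ x, E x X ∧ ∀ y, E y a → Sat E ψ (cons x (cons y (lv l))))
    · obtain ⟨q, hq, h1, h2⟩ := dense_ideal h p (fun x y => Sat E ψ (cons x (cons y (lv l))))
        (by
          refine Dfn.fml ψ (fun n => match n with
            | 0 => fun v => v 0
            | 1 => fun v => v 1
            | n + 2 => fun _ => lv l n) ?_ |>.congr fun v => ?_
          · intro n
            match n with
            | 0 => exact .var _
            | 1 => exact .var _
            | n + 2 => exact .const _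
          · have : (fun n => (match n with
              | 0 => fun v => v 0
              | 1 => fun v => v 1
              | n + 2 => fun _ => lv l n : (ℕ → K) → K) v) =
                cons (v 0) (cons (v 1) (lv l)) := by
              funext n
              match n with
              | 0 => rfl
              | 1 => rfl
              | n + 2 => rfl
            rw [this]) A X hyp
      exact ⟨q, hq, fun _ => ⟨_, h1, h2⟩⟩
    · exact ⟨p, Cond.Ext.refl p, fun h' => absurd h' hyp⟩
  | .inr (.inr (.inr (.inr (.inr (k, a))))) =>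
    by_cases ha : IsFin E a
    · obtain ⟨q, hq, hn⟩ := dense_len h p (k + 1)
      obtain ⟨q', hq', hf⟩ := dense_fin h q k (by omega) a ha
      exact ⟨q', hq.trans hq', fun _ => hf⟩
    · exact ⟨p, Cond.Ext.refl p, fun h' => absurd h' ha⟩

/-- the trivial condition -/
noncomputable def cond0 : Cond E where
  m := 0
  I i := i = Classical.arbitrary K
  D i _ := i = i
  defI := .eq (.var _) (.const _)
  defD := .eq (.var _) (.var _)
  loc _ _ _ _ _ := rfl
  ne := ⟨_, rfl⟩
  dir i j hi hj := ⟨_, rfl, fun _ _ => ⟨rfl, rfl⟩⟩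
  pos i _ := ⟨fun _ => i, rfl⟩
  bdd := ⟨Classical.arbitrary K, fun _ _ _ _ k hk => absurd hk (by omega)⟩

/-- a generic chain of conditions -/
structure Chain (E : K → K → Prop) where
  p : ℕ → Cond E
  ext : ∀ n, Cond.Ext (p n) (p (n + 1))
  meets : ∀ r : Req K, ∃ n, Meets (p n) r

theorem exists_chain [Countable K] (h : ZF E) (hc : Coll E) : Nonempty (Chain E) := by
  have : Nonempty (Req K) := ⟨.inl .bot⟩
  obtain ⟨f, hf⟩ := exists_surjective_nat (Req K)
  choose g hg1 hg2 using fun (p : Cond E) (r : Req K) => dense_all h hc p r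
  let s : ℕ → Cond E := fun n => Nat.rec cond0 (fun n p => g p (f n)) n
  refine ⟨⟨s, fun n => hg1 (s n) (f n), fun r => ?_⟩⟩
  obtain ⟨n, rfl⟩ := hf r
  exact ⟨n + 1, hg2 (s n) (f n)⟩

namespace Chain

variable (G : Chain E)

theorem ext_le {n m : ℕ} (h : n ≤ m) : Cond.Ext (G.p n) (G.p m) := by
  induction m, h using Nat.le_induction with
  | base => exact Cond.Ext.refl _
  | succ m _ ih => exact ih.trans (G.ext m)

/-- forced by the chain -/
def F (R : (ℕ → K) → Prop) : Prop := ∃ n, (G.p n).Force R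

variable {G}

theorem F.and {R S : (ℕ → K) → Prop} (h1 : G.F R) (h2 : G.F S) : G.F (fun v => R v ∧ S v) := by
  obtain ⟨n, hn⟩ := h1
  obtain ⟨m, hm⟩ := h2
  exact ⟨max n m, (hn.mono (G.ext_le (le_max_left _ _))).and
    (hm.mono (G.ext_le (le_max_right _ _)))⟩

theorem F.imp {R S : (ℕ → K) → Prop} (h1 : G.F R) (h : ∀ v, R v → S v) : G.F S := by
  obtain ⟨n, hn⟩ := h1
  exact ⟨n, hn.imp h⟩

theorem F.exists {R : (ℕ → K) → Prop} (h1 : G.F R) : ∃ v, R v := by
  obtain ⟨n, hn⟩ := h1
  exact hn.exists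

theorem F.triv {R : (ℕ → K) → Prop} (h : ∀ v, R v) : G.F R := by
  obtain ⟨i, hi⟩ := (G.p 0).ne
  exact ⟨0, i, hi, fun v _ => h v⟩

theorem F.dec (φ : Fml) : G.F (fun v => Sat E φ v) ∨ G.F (fun v => ¬ Sat E φ v) := by
  obtain ⟨n, _, hn⟩ := G.meets (.inl φ)
  rcases hn with h | h
  · exact Or.inl ⟨n, h⟩
  · exact Or.inr ⟨n, h⟩

variable (G)

/-- equality of names -/
def setoid : Setoid ℕ where
  r k l := G.F (fun v => v k = v l)
  iseqv := ⟨fun _ => F.triv fun _ => rfl, fun h => h.imp fun _ hv => hv.symm,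
    fun h1 h2 => (h1.and h2).imp fun _ hv => hv.1.trans hv.2⟩

/-- the generic model -/
def N : Type := Quotient G.setoid

def cl (k : ℕ) : G.N := Quotient.mk G.setoid k

/-- membership in the generic model -/
def E' (a b : G.N) : Prop := ∃ k l, G.cl k = a ∧ G.cl l = b ∧ G.F (fun v => E (v k) (v l))

variable {G}

theorem cl_eq (k l : ℕ) : G.cl k = G.cl l ↔ G.F (fun v => v k = v l) :=
  ⟨fun h => Quotient.exact h, fun h => Quotient.sound h⟩

theorem E'_cl (k l : ℕ) : G.E' (G.cl k) (G.cl l) ↔ G.F (fun v => E (v k) (v l)) := by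
  constructor
  · rintro ⟨k', l', h1, h2, h3⟩
    refine ((((cl_eq _ _).1 h1).and ((cl_eq _ _).1 h2)).and h3).imp ?_
    rintro v ⟨⟨h4, h5⟩, h6⟩
    rw [← h4, ← h5]; exact h6
  · intro h
    exact ⟨k, l, rfl, rfl, h⟩

theorem truth (φ : Fml) : ∀ e : ℕ → ℕ,
    Sat G.E' φ (fun n => G.cl (e n)) ↔ G.F (fun v => Sat E φ (fun n => v (e n))) := by
  induction φ with
  | mem i j => intro e; exact E'_cl _ _
  | eq i j => intro e; exact cl_eq _ _
  | bot =>
    intro e
    refine ⟨fun h => absurd h id, fun h => ?_⟩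
    obtain ⟨v, hv⟩ := h.exists
    exact hv
  | imp φ ψ h1 h2 =>
    intro e
    have hd := F.dec (G := G) (rename e φ)
    simp only [sat_rename] at hd
    constructor
    · intro h
      rcases hd with h3 | h3
      · exact ((h2 e).1 (h ((h1 e).2 h3))).imp fun v hv _ => hv
      · exact h3.imp fun v hv h4 => absurd h4 hv
    · intro h h3
      exact (h2 e).2 ((h.and ((h1 e).1 h3)).imp fun v hv => hv.1 hv.2)
  | all φ ih =>
    intro e
    constructor
    · intro h
      obtain ⟨n, hn⟩ := G.meets (.inr (.inl (rename (lift e) φ)))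
      rcases hn with h3 | ⟨k, h3⟩
      · refine ⟨n, h3.imp fun v hv a => ?_⟩
        have := hv a
        rw [sat_rename] at this
        have h4 : (fun n => cons a v (lift e n)) = cons a (fun n => v (e n)) := by
          funext n; cases n <;> rfl
        rw [h4] at this
        exact this
      · exfalso
        have h4 := h (G.cl k)
        have h5 : cons (G.cl k) (fun n => G.cl (e n)) = fun n => G.cl (cons k e n) :=
          (comp_cons G.cl k e).symm
        rw [h5] at h4
        have h6 := (ih (cons k e)).1 h4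
        obtain ⟨v, hv1, hv2⟩ := (h6.and ⟨n, h3⟩).exists
        apply hv2
        rw [sat_rename]
        have h7 : (fun n => cons (v k) v (lift e n)) = fun n => v (cons k e n) := by
          funext n; cases n <;> rfl
        rw [h7]
        exact hv1
    · intro h a
      obtain ⟨k, rfl⟩ := Quotient.exists_rep a
      change Sat G.E' φ (cons (G.cl k) (fun n => G.cl (e n)))
      have h5 : cons (G.cl k) (fun n => G.cl (e n)) = fun n => G.cl (cons k e n) :=
        (comp_cons G.cl k e).symm
      rw [h5, ih (cons k e)]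
      refine h.imp fun v hv => ?_
      have h7 : (fun n => v (cons k e n)) = cons (v k) (fun n => v (e n)) := comp_cons v k e
      rw [h7]
      exact hv (v k)

theorem transfer_all {φ : Fml} (h : ∀ v, Sat E φ v) (w : ℕ → G.N) : Sat G.E' φ w := by
  have hw : w = fun n => G.cl (w n).out := by
    funext n
    exact (Quotient.out_eq (w n)).symm
  rw [hw, truth]
  exact F.triv fun v => h _

theorem transfer_ud {R : ∀ {K : Type}, (K → K → Prop) → (ℕ → K) → Prop} (hR : UD R)
    (h : ∀ v : ℕ → K, R E v) (w : ℕ → G.N) : R G.E' w := by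
  obtain ⟨φ, hφ⟩ := hR
  exact (hφ _ _ _).2 (transfer_all (fun v => (hφ _ _ _).1 (h v)) w)

variable (G)

theorem exists_name (b : K) : ∃ k, G.F (fun v => v k = b) := by
  obtain ⟨n, k, hk⟩ := G.meets (.inr (.inr (.inl b)))
  exact ⟨k, n, hk⟩

/-- a name for a standard element -/
noncomputable def nm (b : K) : ℕ := (G.exists_name b).choose

theorem nm_spec (b : K) : G.F (fun v => v (G.nm b) = b) := (G.exists_name b).choose_spec

/-- the embedding -/
noncomputable def ι (b : K) : G.N := G.cl (G.nm b)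

variable {G}

theorem cl_eq_ι (k : ℕ) (b : K) : G.cl k = G.ι b ↔ G.F (fun v => v k = b) := by
  unfold ι
  rw [cl_eq]
  constructor
  · intro h
    exact (h.and (G.nm_spec b)).imp fun v hv => hv.1.trans hv.2
  · intro h
    exact (h.and (G.nm_spec b)).imp fun v hv => hv.1.trans hv.2.symm

theorem ι_inj : Function.Injective G.ι := by
  intro a b hab
  have h1 := (cl_eq_ι (G.nm a) b).1 hab
  obtain ⟨v, hv1, hv2⟩ := (h1.and (G.nm_spec a)).exists
  exact hv2.symm.trans hv1

theorem F_agree (n : ℕ) (e : ℕ → ℕ) (v0 : (ℕ → K) → ℕ → K)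
    (h : ∀ k, G.F (fun v => v (e k) = v0 v k)) :
    G.F (fun v => ∀ k, k < n → v (e k) = v0 v k) := by
  induction n with
  | zero => exact F.triv fun v k hk => absurd hk (by omega)
  | succ n ih =>
    refine (ih.and (h n)).imp fun v hv k hk => ?_
    by_cases hkn : k = n
    · rw [hkn]; exact hv.2
    · exact hv.1 k (by omega)

theorem elem (φ : Fml) (v0 : ℕ → K) : Sat G.E' φ (fun n => G.ι (v0 n)) ↔ Sat E φ v0 := by
  have h1 := F_agree (G := G) (bd φ) (fun n => G.nm (v0 n)) (fun _ => v0)
    (fun k => G.nm_spec (v0 k))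
  have h2 := truth (G := G) φ (fun n => G.nm (v0 n))
  constructor
  · intro h
    obtain ⟨v, hv1, hv2⟩ := ((h2.1 h).and h1).exists
    exact (sat_congr φ _ _ hv2).1 hv1
  · intro h
    apply h2.2
    exact h1.imp fun v hv => (sat_congr φ _ _ hv).2 h

theorem elem_ud {R : ∀ {K : Type}, (K → K → Prop) → (ℕ → K) → Prop} (hR : UD R)
    (v0 : ℕ → K) : R G.E' (fun n => G.ι (v0 n)) ↔ R E v0 := by
  obtain ⟨φ, hφ⟩ := hR
  exact (hφ _ _ _).trans ((elem φ v0).trans (hφ _ _ _).symm)

theorem E'_ι (a b : K) : G.E' (G.ι a) (G.ι b) ↔ E a b := by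
  have := elem_ud (G := G) (UD.mem 0 1) (cons a (fun _ => b))
  exact this

theorem isNat_ι (a : K) : IsNat G.E' (G.ι a) ↔ IsNat E a := by
  have := elem_ud (G := G) (ud_isNat 0) (fun _ => a)
  exact this

theorem isFin_ι (a : K) : IsFin G.E' (G.ι a) ↔ IsFin E a := by
  have := elem_ud (G := G) (ud_isFin 0) (fun _ => a)
  exact this

theorem E'_cl_ι (k : ℕ) (b : K) : G.E' (G.cl k) (G.ι b) ↔ G.F (fun v => E (v k) b) := by
  unfold ι
  rw [E'_cl]
  constructor
  · intro h
    refine (h.and (G.nm_spec b)).imp fun v hv => ?_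
    rw [← hv.2]; exact hv.1
  · intro h
    refine (h.and (G.nm_spec b)).imp fun v hv => ?_
    rw [hv.2]; exact hv.1

theorem E'_ι_cl (k : ℕ) (b : K) : G.E' (G.ι b) (G.cl k) ↔ G.F (fun v => E b (v k)) := by
  unfold ι
  rw [E'_cl]
  constructor
  · intro h
    refine (h.and (G.nm_spec b)).imp fun v hv => ?_
    rw [← hv.2]; exact hv.1
  · intro h
    refine (h.and (G.nm_spec b)).imp fun v hv => ?_
    rw [hv.2]; exact hv.1

end Chain

end Pool.Agent.H83R3.BSPT
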