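import Pool.Agent.H83R3.BSPT.Basic

set_option autoImplicit false

namespace Pool.Agent.H83R3.BSPT

variable {K : Type} {E : K → K → Prop}

theorem ZF.ne (h : ZF E) : Nonempty K := ⟨h.infinity.choose⟩

theorem ZF.sep (h : ZF E) (R : K → Prop) (hR : Dfn E (fun v => R (v 0))) (a : K) :
    ∃ b, ∀ x, E x b ↔ (E x a ∧ R x) := by
  obtain ⟨φ, p, hφ⟩ := hR
  obtain ⟨b, hb⟩ := h.separation (rename (fun n => if n % 2 = 0 then 0 else n / 2 + 1) φ) p a
  refine ⟨b, fun x => ?_⟩
  rw [hb x, sat_rename]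
  have h1 := hφ (fun _ => x)
  have : mix (fun _ => x) p = fun n => cons x p (if n % 2 = 0 then 0 else n / 2 + 1) := by
    funext n
    rcases Nat.even_or_odd' n with ⟨m, rfl | rfl⟩
    · rw [if_pos (by omega), mix_even]; rfl
    · rw [if_neg (by omega), mix_odd, cons_succ]
      congr 1
      omega
  rw [← this]
  exact and_congr Iff.rfl h1.symm

/-- the Collection scheme -/
def Coll (E : K → K → Prop) : Prop :=
  ∀ (φ : Fml) (v : ℕ → K) (a : K), ∃ b, ∀ x, E x a →
    (∃ y, Sat E φ (cons x (cons y v))) → ∃ y, E y b ∧ Sat E φ (cons x (cons y v))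

theorem mix_two (x y : K) (p : ℕ → K) :
    mix (fun n => if n = 0 then x else y) p =
      fun n => cons x (cons y p) (if n % 2 = 0 then (if n = 0 then 0 else 1) else n / 2 + 2) := by
  funext n
  rcases Nat.even_or_odd' n with ⟨m, rfl | rfl⟩
  · rw [if_pos (by omega), mix_even]
    by_cases hm : m = 0
    · rw [if_pos hm, if_pos (by omega)]; rfl
    · rw [if_neg hm, if_neg (by omega)]; rfl
  · rw [if_neg (by omega), mix_odd]
    have : (2 * m + 1) / 2 + 2 = m + 1 + 1 := by omega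
    rw [this, cons_succ, cons_succ]

theorem coll_dfn (hc : Coll E) (R : K → K → Prop) (hR : Dfn E (fun v => R (v 0) (v 1))) (a : K) :
    ∃ b, ∀ x, E x a → (∃ y, R x y) → ∃ y, E y b ∧ R x y := by
  obtain ⟨φ, p, hφ⟩ := hR
  obtain ⟨b, hb⟩ := hc (rename (fun n => if n % 2 = 0 then (if n = 0 then 0 else 1)
    else n / 2 + 2) φ) p a
  have key : ∀ x y, R x y ↔ Sat E (rename (fun n => if n % 2 = 0 then (if n = 0 then 0 else 1)
      else n / 2 + 2) φ) (cons x (cons y p)) := by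
    intro x y
    rw [sat_rename, ← mix_two]
    exact hφ (fun n => if n = 0 then x else y)
  refine ⟨b, fun x hx hy => ?_⟩
  obtain ⟨y, hy⟩ := hy
  obtain ⟨y', hy', h2⟩ := hb x hx ⟨y, (key x y).1 hy⟩
  exact ⟨y', hy', (key x y').2 h2⟩

theorem ZF.repl (h : ZF E) (R : K → K → Prop) (hR : Dfn E (fun v => R (v 0) (v 1))) (a : K)
    (hu : ∀ x, E x a → ∃! y, R x y) : ∃ b, ∀ y, E y b ↔ ∃ x, E x a ∧ R x y := by
  obtain ⟨φ, p, hφ⟩ := hR
  have key : ∀ x y, R x y ↔ Sat E (rename (fun n => if n % 2 = 0 then (if n = 0 then 0 else 1)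
      else n / 2 + 2) φ) (cons x (cons y p)) := by
    intro x y
    rw [sat_rename, ← mix_two]
    exact hφ (fun n => if n = 0 then x else y)
  obtain ⟨b, hb⟩ := h.replacement (rename (fun n => if n % 2 = 0 then (if n = 0 then 0 else 1)
    else n / 2 + 2) φ) p a (fun x hx => by
      obtain ⟨y, hy, huy⟩ := hu x hx
      exact ⟨y, (key x y).1 hy, fun y' hy' => huy y' ((key x y').2 hy')⟩)
  refine ⟨b, fun y => ?_⟩
  rw [hb y]
  exact exists_congr fun x => and_congr Iff.rfl (key x y).symm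

theorem ZF.exists_empty (h : ZF E) : ∃ e, ∀ z, ¬ E z e := by
  obtain ⟨x, ⟨e, _, he⟩, _⟩ := h.infinity
  exact ⟨e, he⟩

theorem ZF.adjoin (h : ZF E) (x y : K) : ∃ z, ∀ w, E w z ↔ (E w x ∨ w = y) := by
  obtain ⟨s, hs⟩ := h.pairing y y
  obtain ⟨t, ht⟩ := h.pairing x s
  obtain ⟨u, hu⟩ := h.union t
  refine ⟨u, fun w => ?_⟩
  rw [hu w]
  constructor
  · rintro ⟨a, ha, hw⟩
    rcases (ht a).1 ha with rfl | rfl
    · exact Or.inl hw
    · rcases (hs w).1 hw with h1 | h1 <;> exact Or.inr h1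
  · rintro (hw | rfl)
    · exact ⟨x, (ht x).2 (Or.inl rfl), hw⟩
    · exact ⟨s, (ht s).2 (Or.inr rfl), (hs w).2 (Or.inl rfl)⟩

theorem ZF.not_mem_self (h : ZF E) (x : K) : ¬ E x x := by
  intro hx
  obtain ⟨s, hs⟩ := h.pairing x x
  obtain ⟨y, hy, hy2⟩ := h.foundation s ⟨x, (hs x).2 (Or.inl rfl)⟩
  have : y = x := by rcases (hs y).1 hy with h1 | h1 <;> exact h1
  subst this
  exact hy2 y hx hy

theorem ZF.omega (h : ZF E) : ∃ W, ∀ n, E n W ↔ IsNat E n := by
  have := h.ne
  obtain ⟨x, hx⟩ := h.infinity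
  obtain ⟨b, hb⟩ := h.sep (fun n => IsNat E n) (Dfn.isNat (Tm.var 0)) x
  refine ⟨b, fun n => ?_⟩
  rw [hb n]
  exact ⟨fun h => h.2, fun h' => ⟨h' x hx, h'⟩⟩

theorem nat_zero {e : K} (he : ∀ z, ¬ E z e) (h : ZF E) : IsNat E e := by
  intro x hx
  obtain ⟨⟨e', he', he2⟩, _⟩ := hx
  have : e = e' := h.ext _ _ fun z => ⟨fun hz => absurd hz (he z), fun hz => absurd hz (he2 z)⟩
  rw [this]; exact he'

theorem succ_unique (h : ZF E) {n m m' : K} (h1 : IsSucc E n m) (h2 : IsSucc E n m') : m = m' :=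
  h.ext _ _ fun z => (h1 z).trans (h2 z).symm

theorem nat_succ (h : ZF E) {n m : K} (hn : IsNat E n) (hm : IsSucc E n m) : IsNat E m := by
  intro x hx
  obtain ⟨z, hz, hs⟩ := hx.2 n (hn x hx)
  rw [succ_unique h hm hs]
  exact hz

theorem ZF.induction (h : ZF E) (P : K → Prop) (hP : Dfn E (fun v => P (v 0)))
    (h0 : ∀ e, (∀ z, ¬ E z e) → P e)
    (hs : ∀ n m, IsNat E n → IsSucc E n m → P n → P m) :
    ∀ n, IsNat E n → P n := by
  have := h.ne
  intro n hn
  obtain ⟨W, hW⟩ := h.omega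
  obtain ⟨b, hb⟩ := h.sep P hP W
  have hind : IsInd E b := by
    constructor
    · obtain ⟨e, he⟩ := h.exists_empty
      exact ⟨e, (hb e).2 ⟨(hW e).2 (nat_zero he h), h0 e he⟩, he⟩
    · intro y hy
      obtain ⟨hyW, hPy⟩ := (hb y).1 hy
      obtain ⟨z, hz⟩ := h.adjoin y y
      have hyn := (hW y).1 hyW
      exact ⟨z, (hb z).2 ⟨(hW z).2 (nat_succ h hyn hz), hs y z hyn hz hPy⟩, hz⟩
  exact ((hb n).1 (hn b hind)).2

theorem nat_elem (h : ZF E) {n : K} (hn : IsNat E n) : ∀ m, E m n → IsNat E m := by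
  have := h.ne
  refine h.induction (fun n => ∀ m, E m n → IsNat E m) ?_ ?_ ?_ n hn
  · exact .all (.imp (.mem (.var _) (.var _)) (.isNat (.var _)))
  · intro e he m hm; exact absurd hm (he m)
  · intro n m hn hs ih k hk
    rcases (hs k).1 hk with h1 | h1
    · exact ih k h1
    · rw [h1]; exact hn

theorem nat_trans (h : ZF E) {n : K} (hn : IsNat E n) : ∀ m, E m n → ∀ k, E k m → E k n := by
  have := h.ne
  refine h.induction (fun n => ∀ m, E m n → ∀ k, E k m → E k n) ?_ ?_ ?_ n hn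
  · exact .all (.imp (.mem (.var _) (.var _)) (.all (.imp (.mem (.var _) (.var _))
      (.mem (.var _) (.var _)))))
  · intro e he m hm; exact absurd hm (he m)
  · intro n m hn hs ih k hk l hl
    rw [hs l]
    rcases (hs k).1 hk with h1 | h1
    · exact Or.inl (ih k h1 l hl)
    · rw [h1] at hl; exact Or.inl hl

/-- for natural numbers `m ∈ n` implies `m + 1 ∈ n` or `m + 1 = n` -/
theorem nat_succ_le (h : ZF E) {n : K} (hn : IsNat E n) :
    ∀ m, E m n → ∀ m', IsSucc E m m' → (E m' n ∨ m' = n) := by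
  have := h.ne
  refine h.induction (fun n => ∀ m, E m n → ∀ m', IsSucc E m m' → (E m' n ∨ m' = n)) ?_ ?_ ?_ n hn
  · exact .all (.imp (.mem (.var _) (.var _)) (.all (.imp (.isSucc (.var _) (.var _))
      (.or (.mem (.var _) (.var _)) (.eq (.var _) (.var _))))))
  · intro e he m hm; exact absurd hm (he m)
  · intro n n' hn hs ih m hm m' hm'
    rcases (hs m).1 hm with h1 | h1
    · left
      rw [hs m']
      exact ih m h1 m' hm'
    · right
      subst h1
      exact succ_unique h hm' hs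

theorem nat_zero_mem (h : ZF E) {n : K} (hn : IsNat E n) :
    ∀ e, (∀ z, ¬ E z e) → (e = n ∨ E e n) := by
  have := h.ne
  refine h.induction (fun n => ∀ e, (∀ z, ¬ E z e) → (e = n ∨ E e n)) ?_ ?_ ?_ n hn
  · exact .all (.imp (.all (.not (.mem (.var _) (.var _))))
      (.or (.eq (.var _) (.var _)) (.mem (.var _) (.var _))))
  · intro e he e' he'
    left
    exact h.ext _ _ fun z => ⟨fun hz => absurd hz (he' z), fun hz => absurd hz (he z)⟩
  · intro n m hn hs ih e he
    right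
    rw [hs e]
    rcases ih e he with h1 | h1
    · exact Or.inr h1
    · exact Or.inl h1

theorem nat_trichotomy (h : ZF E) {m : K} (hm : IsNat E m) :
    ∀ n, IsNat E n → (E m n ∨ m = n ∨ E n m) := by
  have := h.ne
  refine h.induction (fun m => ∀ n, IsNat E n → (E m n ∨ m = n ∨ E n m)) ?_ ?_ ?_ m hm
  · exact .all (.imp (.isNat (.var _)) (.or (.mem (.var _) (.var _))
      (.or (.eq (.var _) (.var _)) (.mem (.var _) (.var _)))))
  · intro e he n hn
    rcases nat_zero_mem h hn e he with h1 | h1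
    · exact Or.inr (Or.inl h1)
    · exact Or.inl h1
  · intro m m' hm hs ih n hn
    rcases ih n hn with h1 | h1 | h1
    · rcases nat_succ_le h hn m h1 m' hs with h2 | h2
      · exact Or.inl h2
      · exact Or.inr (Or.inl h2)
    · right; right
      rw [hs n]
      exact Or.inr h1.symm
    · right; right
      rw [hs n]
      exact Or.inl h1

/-! ### pairs -/

theorem ZF.exists_pair (h : ZF E) (x y : K) : ∃ z, IsPair E z x y := by
  obtain ⟨s, hs⟩ := h.pairing x x
  obtain ⟨t, ht⟩ := h.pairing x y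
  obtain ⟨z, hz⟩ := h.pairing s t
  refine ⟨z, fun w => ?_⟩
  rw [hz w]
  constructor
  · rintro (rfl | rfl)
    · left; intro u; rw [hs u]; tauto
    · right; exact ht
  · rintro (hw | hw)
    · left
      exact h.ext _ _ fun u => by rw [hw u, hs u]; tauto
    · right
      exact h.ext _ _ fun u => by rw [hw u, ht u]

theorem pair_inj (h : ZF E) {z x y x' y' : K} (h1 : IsPair E z x y) (h2 : IsPair E z x' y') :
    x = x' ∧ y = y' := by
  obtain ⟨s, hs⟩ := h.pairing x x
  obtain ⟨t, ht⟩ := h.pairing x y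
  obtain ⟨s', hs'⟩ := h.pairing x' x'
  obtain ⟨t', ht'⟩ := h.pairing x' y'
  have hs1 : ∀ u, E u s ↔ u = x := fun u => by rw [hs u]; tauto
  have hs1' : ∀ u, E u s' ↔ u = x' := fun u => by rw [hs' u]; tauto
  have e1 : E s z := (h1 s).2 (Or.inl hs1)
  have e2 : E t z := (h1 t).2 (Or.inr ht)
  have e2' : E t' z := (h2 t').2 (Or.inr ht')
  -- x = x'
  have hx : x = x' := by
    rcases (h2 s).1 e1 with h3 | h3
    · have : x' = x := (hs1 x').1 ((h3 x').2 rfl)
      exact this.symm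
    · have : x' = x := (hs1 x').1 ((h3 x').2 (Or.inl rfl))
      exact this.symm
  subst hx
  refine ⟨rfl, ?_⟩
  -- y ∈ t, t ∈ z
  have hyt : E y t := (ht y).2 (Or.inr rfl)
  have hyt' : E y' t' := (ht' y').2 (Or.inr rfl)
  rcases (h2 t).1 e2 with h3 | h3
  · -- t = {x}, y = x
    have hyx : y = x := (h3 y).1 hyt
    rcases (h1 t').1 e2' with h4 | h4
    · rw [hyx]; exact ((h4 y').1 hyt').symm
    · rcases (h4 y').1 hyt' with h5 | h5
      · rw [hyx, h5]
      · exact h5.symm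
  · -- t = {x, y'}
    rcases (h3 y).1 hyt with h4 | h4
    · rcases (h1 t').1 e2' with h5 | h5
      · rw [h4]; exact ((h5 y').1 hyt').symm
      · rcases (h5 y').1 hyt' with h6 | h6
        · rw [h4, h6]
        · exact h6.symm
    · exact h4

/-! ### finite sets -/

theorem fin_empty (h : ZF E) {e : K} (he : ∀ z, ¬ E z e) : IsFin E e := by
  refine ⟨e, e, nat_zero he h, ?_, ?_, ?_, ?_, ?_⟩
  · rintro x y ⟨p, hp, _⟩; exact absurd hp (he p)
  · intro x hx; exact absurd hx (he x)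
  · intro x hx; exact absurd hx (he x)
  · rintro x y y' ⟨p, hp, _⟩; exact absurd hp (he p)
  · rintro x x' y ⟨p, hp, _⟩; exact absurd hp (he p)

/-- adding one pair to a graph -/
theorem app_adjoin (h : ZF E) {f f' n x p : K} (hp : IsPair E p n x)
    (hf' : ∀ w, E w f' ↔ (E w f ∨ w = p)) (a b : K) :
    App E f' a b ↔ (App E f a b ∨ (a = n ∧ b = x)) := by
  constructor
  · rintro ⟨q, hq, hq2⟩
    rcases (hf' q).1 hq with h1 | h1
    · exact Or.inl ⟨q, h1, hq2⟩
    · subst h1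
      obtain ⟨rfl, rfl⟩ := pair_inj h hp hq2
      exact Or.inr ⟨rfl, rfl⟩
  · rintro (⟨q, hq, hq2⟩ | ⟨rfl, rfl⟩)
    · exact ⟨q, (hf' q).2 (Or.inl hq), hq2⟩
    · exact ⟨p, (hf' p).2 (Or.inr rfl), hp⟩

theorem fin_adjoin (h : ZF E) {a x a' : K} (ha : IsFin E a)
    (ha' : ∀ w, E w a' ↔ (E w a ∨ w = x)) : IsFin E a' := by
  by_cases hxa : E x a
  · have : a' = a := h.ext _ _ fun w => by
      rw [ha' w]
      constructor
      · rintro (h1 | rfl)
        · exact h1
        · exact hxa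
      · exact Or.inl
    rw [this]; exact ha
  obtain ⟨n, f, hn, h1, h2, h3, h4, h5⟩ := ha
  obtain ⟨n', hn'⟩ := h.adjoin n n
  obtain ⟨p, hp⟩ := h.exists_pair n x
  obtain ⟨f', hf'⟩ := h.adjoin f p
  have happ := app_adjoin h hp hf'
  have hnn : ¬ E n n := h.not_mem_self n
  refine ⟨n', f', nat_succ h hn hn', ?_, ?_, ?_, ?_, ?_⟩
  · intro b c hbc
    rw [hn' b, ha' c]
    rcases (happ b c).1 hbc with h6 | ⟨rfl, rfl⟩
    · exact ⟨Or.inl (h1 b c h6).1, Or.inl (h1 b c h6).2⟩
    · exact ⟨Or.inr rfl, Or.inr rfl⟩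
  · intro b hb
    rcases (hn' b).1 hb with h6 | rfl
    · obtain ⟨c, hc⟩ := h2 b h6
      exact ⟨c, (happ b c).2 (Or.inl hc)⟩
    · exact ⟨x, (happ b x).2 (Or.inr ⟨rfl, rfl⟩)⟩
  · intro c hc
    rcases (ha' c).1 hc with h6 | rfl
    · obtain ⟨b, hb⟩ := h3 c h6
      exact ⟨b, (happ b c).2 (Or.inl hb)⟩
    · exact ⟨n, (happ n c).2 (Or.inr ⟨rfl, rfl⟩)⟩
  · intro b c c' hc hc'
    rcases (happ b c).1 hc with h6 | ⟨rfl, rfl⟩
    · rcases (happ b c').1 hc' with h7 | ⟨rfl, rfl⟩
      · exact h4 b c c' h6 h7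
      · exact absurd (h1 b c h6).1 hnn
    · rcases (happ b c').1 hc' with h7 | ⟨_, rfl⟩
      · exact absurd (h1 b c' h7).1 hnn
      · rfl
  · intro b b' c hc hc'
    rcases (happ b c).1 hc with h6 | ⟨rfl, rfl⟩
    · rcases (happ b' c).1 hc' with h7 | ⟨rfl, rfl⟩
      · exact h5 b b' c h6 h7
      · exact absurd (h1 b c h6).2 hxa
    · rcases (happ b' c).1 hc' with h7 | ⟨rfl, _⟩
      · exact absurd (h1 b' c h7).2 hxa
      · rfl

/-- induction over finite sets -/
theorem fin_induction (h : ZF E) (P : K → Prop) (hP : Dfn E (fun v => P (v 0)))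
    (h0 : ∀ e, (∀ z, ¬ E z e) → P e)
    (hs : ∀ a x a', (∀ w, E w a' ↔ (E w a ∨ w = x)) → P a → P a') :
    ∀ a, IsFin E a → P a := by
  have := h.ne
  rintro a ⟨n, f, hn, hf⟩
  revert a f
  have key : ∀ n, IsNat E n → ∀ a f, IsBij E f n a → P a := by
    refine h.induction (fun n => ∀ a f, IsBij E f n a → P a) ?_ ?_ ?_
    · refine .all (.all (.imp (.isBij (.var _) (.var _) (.var _)) ?_))
      exact Dfn.sub (R := fun v => P (v 0)) hP (fun _ v => v (0 + 1)) (fun _ => .var _)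
    · intro e he a f hf
      apply h0
      intro z hz
      obtain ⟨x, hx⟩ := hf.2.2.1 z hz
      exact he x (hf.1 x z hx).1
    · intro n n' hn hs' ih a f hf
      obtain ⟨h1, h2, h3, h4, h5⟩ := hf
      obtain ⟨x, hx⟩ := h2 n ((hs' n).2 (Or.inr rfl))
      -- a' = a without x
      obtain ⟨a', ha'⟩ := h.sep (fun w => w ≠ x) (.not (.eq (.var _) (.const _))) a
      obtain ⟨f', hf'⟩ := h.sep (fun p => ¬ IsPair E p n x)
        (.not (.isPair (.var _) (.const _) (.const _))) f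
      have happ : ∀ b c, App E f' b c ↔ (App E f b c ∧ ¬ (b = n ∧ c = x)) := by
        intro b c
        constructor
        · rintro ⟨p, hp, hp2⟩
          refine ⟨⟨p, ((hf' p).1 hp).1, hp2⟩, ?_⟩
          rintro ⟨rfl, rfl⟩
          exact ((hf' p).1 hp).2 hp2
        · rintro ⟨⟨p, hp, hp2⟩, hne⟩
          refine ⟨p, (hf' p).2 ⟨hp, fun hp3 => hne ?_⟩, hp2⟩
          obtain ⟨h6, h7⟩ := pair_inj h hp2 hp3
          exact ⟨h6, h7⟩
      have hnn : ¬ E n n := h.not_mem_self n
      have hbij : IsBij E f' n a' := by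
        refine ⟨?_, ?_, ?_, ?_, ?_⟩
        · intro b c hbc
          obtain ⟨h6, h7⟩ := (happ b c).1 hbc
          obtain ⟨h8, h9⟩ := h1 b c h6
          have hbn : b ≠ n := by
            rintro rfl
            exact h7 ⟨rfl, h4 b c x h6 hx⟩
          refine ⟨?_, (ha' c).2 ⟨h9, ?_⟩⟩
          · rcases (hs' b).1 h8 with h10 | h10
            · exact h10
            · exact absurd h10 hbn
          · rintro rfl
            exact h7 ⟨h5 b n c h6 hx, rfl⟩
        · intro b hb
          obtain ⟨c, hc⟩ := h2 b ((hs' b).2 (Or.inl hb))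
          refine ⟨c, (happ b c).2 ⟨hc, ?_⟩⟩
          rintro ⟨rfl, _⟩
          exact hnn hb
        · intro c hc
          obtain ⟨h6, h7⟩ := (ha' c).1 hc
          obtain ⟨b, hb⟩ := h3 c h6
          exact ⟨b, (happ b c).2 ⟨hb, fun h8 => h7 h8.2⟩⟩
        · intro b c c' hc hc'
          exact h4 b c c' ((happ b c).1 hc).1 ((happ b c').1 hc').1
        · intro b b' c hc hc'
          exact h5 b b' c ((happ b c).1 hc).1 ((happ b' c).1 hc').1
      have hPa' := ih a' f' hbij
      refine hs a' x a ?_ hPa'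
      intro w
      rw [ha' w]
      constructor
      · intro hw
        by_cases hwx : w = x
        · exact Or.inr hwx
        · exact Or.inl ⟨hw, hwx⟩
      · rintro (h6 | rfl)
        · exact h6.1
        · exact (h1 n w hx).2
  exact fun a f hf => key n hn a f hf

theorem fin_union (h : ZF E) {a b c : K} (ha : IsFin E a) (hb : IsFin E b)
    (hc : ∀ w, E w c ↔ (E w a ∨ E w b)) : IsFin E c := by
  have := h.ne
  have key : ∀ a, IsFin E a → ∀ c, (∀ w, E w c ↔ (E w a ∨ E w b)) → IsFin E c := by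
    refine fin_induction h (fun a => ∀ c, (∀ w, E w c ↔ (E w a ∨ E w b)) → IsFin E c) ?_ ?_ ?_
    · exact .all (.imp (.all (.iff (.mem (.var _) (.var _)) (.or (.mem (.var _) (.var _))
        (.mem (.var _) (.const _))))) (.isFin (.var _)))
    · intro e he c hc
      have : c = b := h.ext _ _ fun w => by rw [hc w]; have := he w; tauto
      rw [this]; exact hb
    · intro a x a' ha' ih c hc
      obtain ⟨t, ht⟩ := h.pairing a b
      obtain ⟨u, hu⟩ := h.union t
      have hu' : ∀ w, E w u ↔ (E w a ∨ E w b) := by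
        intro w
        rw [hu w]
        constructor
        · rintro ⟨y, hy, hw⟩
          rcases (ht y).1 hy with rfl | rfl
          · exact Or.inl hw
          · exact Or.inr hw
        · rintro (hw | hw)
          · exact ⟨a, (ht a).2 (Or.inl rfl), hw⟩
          · exact ⟨b, (ht b).2 (Or.inr rfl), hw⟩
      refine fin_adjoin h (x := x) (ih u hu') fun w => ?_
      rw [hc w, ha' w, hu' w]
      tauto
  exact key a ha c hc

theorem ZF.binUnion (h : ZF E) (a b : K) : ∃ u, ∀ w, E w u ↔ (E w a ∨ E w b) := by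
  obtain ⟨t, ht⟩ := h.pairing a b
  obtain ⟨u, hu⟩ := h.union t
  refine ⟨u, fun w => ?_⟩
  rw [hu w]
  constructor
  · rintro ⟨y, hy, hw⟩
    rcases (ht y).1 hy with rfl | rfl
    · exact Or.inl hw
    · exact Or.inr hw
  · rintro (hw | hw)
    · exact ⟨a, (ht a).2 (Or.inl rfl), hw⟩
    · exact ⟨b, (ht b).2 (Or.inr rfl), hw⟩

end Pool.Agent.H83R3.BSPT
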