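import Pool.Agent.H83R3.BSPT.Generic

set_option autoImplicit false

namespace Pool.Agent.H83R3.BSPT

theorem UD.fmlsub (φ : Fml) (f : ℕ → ℕ)
    {R : ∀ {K : Type}, (K → K → Prop) → (ℕ → K) → Prop}
    (h : ∀ (K : Type) (E : K → K → Prop) (v : ℕ → K), R E v ↔ Sat E φ (fun n => v (f n))) :
    UD R :=
  (UD.sub f (UD.fml φ)).congr h

variable {K : Type} {E : K → K → Prop} [Nonempty K]

namespace Chain

variable {G : Chain E}

theorem zf_N (h : ZF E) : ZF G.E' where
  ext := by
    have hu : UD (fun {_} E _ => ∀ x y, (∀ z, E z x ↔ E z y) → x = y) :=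
      .all (.all (.imp (.all (.iff (.mem _ _) (.mem _ _))) (.eq _ _)))
    exact transfer_ud hu (fun _ => h.ext) (fun _ => G.cl 0)
  foundation := by
    have hu : UD (fun {_} E _ => ∀ x, (∃ y, E y x) → ∃ y, E y x ∧ ∀ z, E z y → ¬ E z x) :=
      .all (.imp (.ex (.mem _ _)) (.ex (.and (.mem _ _) (.all (.imp (.mem _ _)
        (.not (.mem _ _)))))))
    exact transfer_ud hu (fun _ => h.foundation) (fun _ => G.cl 0)
  pairing := by
    have hu : UD (fun {_} E _ => ∀ x y, ∃ z, ∀ w, E w z ↔ (w = x ∨ w = y)) :=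
      .all (.all (.ex (.all (.iff (.mem _ _) (.or (.eq _ _) (.eq _ _))))))
    exact transfer_ud hu (fun _ => h.pairing) (fun _ => G.cl 0)
  union := by
    have hu : UD (fun {_} E _ => ∀ x, ∃ u, ∀ z, E z u ↔ ∃ y, E y x ∧ E z y) :=
      .all (.ex (.all (.iff (.mem _ _) (.ex (.and (.mem _ _) (.mem _ _))))))
    exact transfer_ud hu (fun _ => h.union) (fun _ => G.cl 0)
  power := by
    have hu : UD (fun {_} E _ => ∀ x, ∃ p, ∀ z, E z p ↔ ∀ w, E w z → E w x) :=
      .all (.ex (.all (.iff (.mem _ _) (.all (.imp (.mem _ _) (.mem _ _))))))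
    exact transfer_ud hu (fun _ => h.power) (fun _ => G.cl 0)
  infinity := by
    have hu : UD (fun {_} E _ => ∃ x, IsInd E x) := .ex (ud_isInd _)
    exact transfer_ud hu (fun _ => h.infinity) (fun _ => G.cl 0)
  separation := by
    intro φ v a
    have hu : UD (fun {_} E v => ∃ b, ∀ x, E x b ↔
        (E x (v 0) ∧ Sat E φ (cons x (fun n => v (n + 1))))) := by
      refine .ex (.all (.iff (.mem _ _) (.and (.mem _ _) ?_)))
      refine UD.fmlsub φ (fun n => match n with
        | 0 => 0
        | n + 1 => n + 3) (fun K E v => ?_)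
      have : (cons (v 0) fun n => v (n + 1 + 1 + 1)) = (fun n => v (match n with
        | 0 => 0
        | n + 1 => n + 3)) := by
        funext n; cases n <;> rfl
      rw [← this]
    have := transfer_ud (G := G) hu (fun v => h.separation φ (fun n => v (n + 1)) (v 0))
      (cons a v)
    exact this
  replacement := by
    intro φ v a
    have hsub : ∀ (f : ℕ → ℕ) (i j : ℕ), UD (fun {_} E v =>
        Sat E φ (cons (v i) (cons (v j) (fun n => v (f n))))) := by
      intro f i j
      refine UD.fmlsub φ (fun n => match n with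
        | 0 => i
        | 1 => j
        | n + 2 => f n) (fun K E v => ?_)
      have : (cons (v i) (cons (v j) (fun n => v (f n)))) = (fun n => v (match n with
        | 0 => i
        | 1 => j
        | n + 2 => f n)) := by
        funext n
        match n with
        | 0 => rfl
        | 1 => rfl
        | n + 2 => rfl
      rw [← this]
    have hu : UD (fun {_} E v => (∀ x, E x (v 0) →
        (∃ y, Sat E φ (cons x (cons y (fun n => v (n + 1)))) ∧
          ∀ y', Sat E φ (cons x (cons y' (fun n => v (n + 1)))) → y' = y)) →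
        ∃ b, ∀ y, E y b ↔ ∃ x, E x (v 0) ∧ Sat E φ (cons x (cons y (fun n => v (n + 1))))) := by
      refine .imp (.all (.imp (.mem _ _) (.ex (.and (hsub _ _ _) (.all (.imp (hsub _ _ _)
        (.eq _ _))))))) (.ex (.all (.iff (.mem _ _) (.ex (.and (.mem _ _) (hsub _ _ _))))))
    have := transfer_ud (G := G) hu
      (fun v => h.replacement φ (fun n => v (n + 1)) (v 0)) (cons a v)
    exact this

/-- the class of standard elements -/
def S (G : Chain E) (x : G.N) : Prop := ∃ b, G.ι b = x

theorem std_assign {v : ℕ → G.N} (hv : ∀ n, G.S (v n)) : ∃ v0 : ℕ → K, v = fun n => G.ι (v0 n) := by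
  choose v0 h0 using hv
  exact ⟨v0, funext fun n => (h0 n).symm⟩

theorem fin_bounded (h : ZF E) : ∀ a, IsFin E a → (∀ y, E y a → IsNat E y) →
    ∃ n, IsNat E n ∧ ∀ y, E y a → E y n := by
  refine fin_induction h _ ?_ ?_ ?_
  · exact .imp (.all (.imp (.mem (.var _) (.var _)) (.isNat (.var _))))
      (.ex (.and (.isNat (.var _)) (.all (.imp (.mem (.var _) (.var _))
        (.mem (.var _) (.var _))))))
  · intro e he _
    exact ⟨e, nat_zero he h, fun y hy => absurd hy (he y)⟩
  · intro a x a' ha' ih hnat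
    obtain ⟨n, hn, hn2⟩ := ih (fun y hy => hnat y ((ha' y).2 (Or.inl hy)))
    have hx : IsNat E x := hnat x ((ha' x).2 (Or.inr rfl))
    rcases nat_trichotomy h hx n hn with h1 | h1 | h1
    · refine ⟨n, hn, fun y hy => ?_⟩
      rcases (ha' y).1 hy with h2 | h2
      · exact hn2 y h2
      · rw [h2]; exact h1
    · obtain ⟨s, hs⟩ := h.adjoin x x
      refine ⟨s, nat_succ h hx hs, fun y hy => (hs y).2 ?_⟩
      rcases (ha' y).1 hy with h2 | h2
      · left; rw [h1]; exact hn2 y h2
      · exact Or.inr h2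
    · obtain ⟨s, hs⟩ := h.adjoin x x
      refine ⟨s, nat_succ h hx hs, fun y hy => (hs y).2 ?_⟩
      rcases (ha' y).1 hy with h2 | h2
      · left; exact nat_trans h hx n h1 y (hn2 y h2)
      · exact Or.inr h2

theorem F_lt (k : ℕ) : ∃ n, k < (G.p n).m := by
  obtain ⟨n, hn, _⟩ := G.meets (.inl (.eq k k))
  refine ⟨n, ?_⟩
  simp only [bd] at hn
  omega

/-- the values of a finite part of an assignment -/
theorem exists_lv (v0 : ℕ → K) (n : ℕ) : ∃ l : List K, ∀ k, k < n → lv l k = v0 k := by
  refine ⟨(List.range n).map v0, fun k hk => ?_⟩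
  unfold lv
  rw [List.getD_eq_getElem?_getD]
  simp [hk]

theorem bspt (h : ZF E) : BSPT' G.E' G.S where
  zf := zf_N h
  transfer := by
    intro φ v hv hx x
    obtain ⟨v0, rfl⟩ := std_assign hv
    have h1 : Sat E (.all φ) v0 := by
      intro b
      rw [← elem (G := G)]
      have := hx (G.ι b) ⟨b, rfl⟩
      rw [← comp_cons G.ι b v0] at this
      exact this
    rw [← elem (G := G)] at h1
    exact h1 x
  nontrivial := by
    obtain ⟨W, hW⟩ := h.omega
    obtain ⟨n, hn⟩ := G.meets (.inr (.inr (.inr (.inr (.inl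
      (.imp (.eq 0 1) .bot, [], W, W))))))
    obtain ⟨k, hk1, hk2⟩ := hn (by
      intro a ha haW
      obtain ⟨m, hm, hm2⟩ := fin_bounded h a ha (fun y hy => (hW y).1 (haW y hy))
      refine ⟨m, (hW m).2 hm, fun y hy heq => ?_⟩
      have : m = y := heq
      rw [this] at hm2
      exact h.not_mem_self y (hm2 y hy))
    refine ⟨G.cl k, ?_, ?_⟩
    · have h1 : G.E' (G.cl k) (G.ι W) := (E'_cl_ι k W).2 ⟨n, hk1⟩
      have h2 : ∀ x, G.E' x (G.ι W) → IsNat G.E' x := by
        have hu : UD (fun {_} E v => ∀ x, E x (v 0) → IsNat E x) :=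
          .all (.imp (.mem _ _) (ud_isNat _))
        exact (elem_ud (G := G) hu (fun _ => W)).2 (fun x hx => (hW x).1 hx)
      exact h2 _ h1
    · rintro x ⟨b, rfl⟩ hb heq
      have hbn : IsNat E b := (isNat_ι b).1 hb
      have h3 := hk2 b ((hW b).2 hbn)
      have h4 := (cl_eq_ι k b).1 heq.symm
      obtain ⟨v, hv1, hv2⟩ := (h4.and ⟨n, h3⟩).exists
      exact hv2 hv1
  standardPart := by
    intro A hA
    obtain ⟨k, rfl⟩ := Quotient.exists_rep A
    change ∀ z, G.E' z (G.cl k) → _ at hA
    obtain ⟨n, B, hB, hBf⟩ := G.meets (.inr (.inr (.inr (.inl k))))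
    refine ⟨G.ι B, ⟨B, rfl⟩, ?_, ?_⟩
    · have hu : UD (fun {_} E v => ∀ x, E x (v 0) → IsNat E x) :=
        .all (.imp (.mem _ _) (ud_isNat _))
      exact (elem_ud (G := G) hu (fun _ => B)).2 hB
    · rintro x ⟨b, rfl⟩ hb
      have hbn : IsNat E b := (isNat_ι b).1 hb
      change _ ↔ G.E' (G.ι b) (G.cl k)
      rw [E'_ι, E'_ι_cl]
      have h3 : G.F (fun v => (E b (v k) ↔ E b B)) := ⟨n, hBf b hbn⟩
      constructor
      · intro h4
        exact h3.imp fun v hv => hv.2 h4
      · intro h4
        obtain ⟨v, hv1, hv2⟩ := (h3.and h4).exists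
        exact hv1.1 hv2
  bounded := by
    intro x
    obtain ⟨k, rfl⟩ := Quotient.exists_rep x
    obtain ⟨n, hn⟩ := F_lt (G := G) k
    obtain ⟨X, hX⟩ := (G.p n).bdd
    refine ⟨G.ι X, ⟨X, rfl⟩, ?_⟩
    change G.E' (G.cl k) (G.ι X)
    rw [E'_cl_ι]
    obtain ⟨i, hi⟩ := (G.p n).ne
    exact ⟨n, i, hi, fun v hv => hX i v hi hv k hn⟩
  idealization := by
    intro φ v hv A X hA hX
    obtain ⟨v0, rfl⟩ := std_assign hv
    obtain ⟨A, rfl⟩ := hA
    obtain ⟨X, rfl⟩ := hX
    constructor
    · intro hyp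
      obtain ⟨l, hl⟩ := exists_lv v0 (bd φ)
      have hsat : ∀ x y : K, Sat E φ (cons x (cons y v0)) ↔ Sat E φ (cons x (cons y (lv l))) := by
        intro x y
        refine sat_congr φ _ _ (fun n hn => ?_)
        match n with
        | 0 => rfl
        | 1 => rfl
        | n + 2 => exact (hl n (by omega)).symm
      obtain ⟨n, hn⟩ := G.meets (.inr (.inr (.inr (.inr (.inl (φ, l, A, X))))))
      obtain ⟨k, hk1, hk2⟩ := hn (by
        intro a ha haA
        have h1 := hyp (G.ι a) ⟨a, rfl⟩ ((isFin_ι a).2 ha) (by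
          have hu : UD (fun {_} E v => ∀ y, E y (v 0) → E y (v 1)) :=
            .all (.imp (.mem _ _) (.mem _ _))
          exact (elem_ud (G := G) hu (cons a (fun _ => A))).2 haA)
        have hu : UD (fun {_} E v => ∃ x, E x (v 0) ∧ ∀ y, E y (v 1) →
            Sat E φ (cons x (cons y (fun n => v (n + 2))))) := by
          refine .ex (.and (.mem _ _) (.all (.imp (.mem _ _) ?_)))
          refine UD.fmlsub φ (fun n => match n with
            | 0 => 1
            | 1 => 0
            | n + 2 => n + 4) (fun K E v => ?_)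
          have : (cons (v (0 + 1)) (cons (v 0) (fun n => v (n + 2 + 1 + 1)))) =
            (fun n => v (match n with
            | 0 => 1
            | 1 => 0
            | n + 2 => n + 4)) := by
            funext n
            match n with
            | 0 => rfl
            | 1 => rfl
            | n + 2 => rfl
          rw [← this]
        have h2 := (elem_ud (G := G) hu (cons X (cons a v0))).1 (by
          rw [comp_cons, comp_cons]
          exact h1)
        obtain ⟨x, hx, hx2⟩ := h2
        exact ⟨x, hx, fun y hy => (hsat x y).1 (hx2 y hy)⟩)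
      refine ⟨G.cl k, (E'_cl_ι k X).2 ⟨n, hk1⟩, ?_⟩
      rintro y ⟨b, rfl⟩ hb
      have hbA : E b A := (E'_ι b A).1 hb
      have h3 : G.F (fun v => Sat E φ (cons (v k) (cons b (lv l)))) := ⟨n, hk2 b hbA⟩
      have he : cons (G.cl k) (cons (G.ι b) (fun n => G.ι (v0 n))) =
          fun n => G.cl (cons k (cons (G.nm b) (fun n => G.nm (v0 n))) n) := by
        funext n
        match n with
        | 0 => rfl
        | 1 => rfl
        | n + 2 => rfl
      rw [he, truth]
      have h4 := F_agree (G := G) (bd φ) (cons k (cons (G.nm b) (fun n => G.nm (v0 n))))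
        (fun v => cons (v k) (cons b v0)) (by
          intro j
          match j with
          | 0 => exact F.triv fun v => rfl
          | 1 => exact G.nm_spec b
          | j + 2 => exact G.nm_spec (v0 j))
      refine (h3.and h4).imp fun v hv => ?_
      obtain ⟨hv1, hv2⟩ := hv
      refine (sat_congr φ _ _ hv2).2 ?_
      refine (sat_congr φ _ _ (fun n hn => ?_)).1 hv1
      match n with
      | 0 => rfl
      | 1 => rfl
      | n + 2 => exact hl n (by omega)
    · rintro ⟨x, hx, hx2⟩ a ⟨a, rfl⟩ haf haA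
      refine ⟨x, hx, fun y hy => ?_⟩
      have hys : G.S y := by
        obtain ⟨k, rfl⟩ := Quotient.exists_rep y
        change G.E' (G.cl k) (G.ι a) at hy
        obtain ⟨n, hn⟩ := G.meets (.inr (.inr (.inr (.inr (.inr (k, a))))))
        have hFa := (E'_cl_ι k a).1 hy
        rcases hn ((isFin_ι a).1 haf) with h1 | ⟨b, hb, h1⟩
        · have h2 : G.F (fun v => ¬ E (v k) a) := ⟨n, h1⟩
          obtain ⟨v, hv1, hv2⟩ := (hFa.and h2).exists
          exact absurd hv1 hv2
        · exact ⟨b, ((cl_eq_ι k b).2 ⟨n, h1⟩).symm⟩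
      exact hx2 y hys (haA y hy)

end Chain

/-- Every countable model of ZF (given with the Collection scheme) extends to a model of
BSPT'. -/
theorem extension [Countable K] (h : ZF E) (hc : Coll E) :
    ∃ (N : Type) (E' : N → N → Prop) (ι : K → N), Function.Injective ι ∧
      (∀ a b, E' (ι a) (ι b) ↔ E a b) ∧ BSPT' E' (fun x => ∃ a, ι a = x) := by
  obtain ⟨G⟩ := exists_chain h hc
  exact ⟨G.N, G.E', G.ι, Chain.ι_inj, Chain.E'_ι, Chain.bspt h⟩

end Pool.Agent.H83R3.BSPT
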